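import Pool.Agent.Helper60.PlzA.Goals

/-!
# The key inequality STAR (MP_8e7d5e_co, project PLA)
-/

set_option autoImplicit false

namespace Pool.Agent.Helper60.PlzA

open Finset

/-- The tangent line inequality for values at most `1/2`. -/
theorem star_tangent (m x : ℝ) (hm0 : 0 ≤ m) (hm : m ≤ 1 / 2) (hx0 : 0 ≤ x) (hx : x ≤ 1 / 2) :
    (m ^ 2 - m ^ 5 + (m - 1 / 4) * m ^ 3) +
      (2 * m - 5 * m ^ 4 + 3 * (m - 1 / 4) * m ^ 2) * (x - m) ≤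
      x ^ 2 - x ^ 5 + (m - 1 / 4) * x ^ 3 := by
  have hq : 0 ≤ 1 - (x ^ 3 + 2 * m * x ^ 2 + 3 * m ^ 2 * x + 4 * m ^ 3) +
      (m - 1 / 4) * (x + 2 * m) := by
    have h1 : 0 ≤ (1 / 2 - x) * ((x ^ 2 + x / 2 + 1 / 4) + 2 * m * (x + 1 / 2) +
        3 * m ^ 2 - m + 1 / 4) := by
      refine mul_nonneg (by linarith) ?_
      nlinarith [sq_nonneg (m - 1 / 6), mul_nonneg hm0 hx0, sq_nonneg x]
    have h2 : 0 ≤ 3 / 4 - m / 2 + m ^ 2 / 2 - 4 * m ^ 3 := by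
      have h3 : m ^ 3 ≤ 1 / 8 := by
        calc m ^ 3 ≤ (1 / 2) ^ 3 := pow_le_pow_left₀ hm0 hm 3
          _ = 1 / 8 := by norm_num
      nlinarith [sq_nonneg m]
    nlinarith [h1, h2]
  nlinarith [mul_nonneg (sq_nonneg (x - m)) hq]

/-- The case of values at most `1/2`. -/
theorem star_small {ι : Type} (s : Finset ι) (θ : ι → ℝ) (h0 : ∀ i ∈ s, 0 ≤ θ i)
    (h1 : ∑ i ∈ s, θ i ≤ 1) (h2 : ∀ i ∈ s, θ i ≤ 1 / 2) :
    0 ≤ (1 / 4 - ∑ i ∈ s, θ i ^ 2) * (1 - ∑ i ∈ s, θ i ^ 4) + ∑ i ∈ s, θ i ^ 3 -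
      ∑ i ∈ s, θ i ^ 6 := by
  set m := ∑ i ∈ s, θ i ^ 2 with hm
  have hm0 : 0 ≤ m := Finset.sum_nonneg fun i _ => sq_nonneg _
  have hm1 : m ≤ 1 / 2 := by
    have : m ≤ ∑ i ∈ s, (1 / 2) * θ i := by
      refine Finset.sum_le_sum fun i hi => ?_
      nlinarith [h0 i hi, h2 i hi]
    rw [← Finset.mul_sum] at this
    linarith
  set c1 : ℝ := 2 * m - 5 * m ^ 4 + 3 * (m - 1 / 4) * m ^ 2 with hc1
  set c0 : ℝ := (m ^ 2 - m ^ 5 + (m - 1 / 4) * m ^ 3) - c1 * m with hc0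
  have hc0' : c0 ≤ 0 := by
    have := star_tangent m 0 hm0 hm1 le_rfl (by norm_num)
    simp only [hc0, hc1]
    nlinarith [this]
  have hsum : c0 * ∑ i ∈ s, θ i + c1 * m ≤
      ∑ i ∈ s, θ i ^ 3 - ∑ i ∈ s, θ i ^ 6 + (m - 1 / 4) * ∑ i ∈ s, θ i ^ 4 := by
    rw [hm, Finset.mul_sum, Finset.mul_sum, Finset.mul_sum, ← Finset.sum_add_distrib,
      ← Finset.sum_sub_distrib, ← Finset.sum_add_distrib, ← hm]
    refine Finset.sum_le_sum fun i hi => ?_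
    have h3 := star_tangent m (θ i) hm0 hm1 (h0 i hi) (h2 i hi)
    have h4 : c0 + c1 * θ i ≤ θ i ^ 2 - θ i ^ 5 + (m - 1 / 4) * θ i ^ 3 := by
      simp only [hc0, hc1]
      nlinarith [h3]
    nlinarith [mul_le_mul_of_nonneg_left h4 (h0 i hi)]
  have h5 : c0 ≤ c0 * ∑ i ∈ s, θ i := by nlinarith
  have h6 : 0 ≤ (1 / 2 - m) ^ 2 * (1 - m ^ 3) := by
    refine mul_nonneg (sq_nonneg _) ?_
    have : m ^ 3 ≤ 1 := pow_le_one₀ hm0 (by linarith)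
    linarith
  have h7 : c0 + c1 * m = m ^ 2 - m ^ 5 + (m - 1 / 4) * m ^ 3 := by
    simp only [hc0]; ring
  nlinarith [hsum, h5, h6, h7]

/-- The auxiliary function is subadditive. -/
theorem star_sub (b x z : ℝ) (hb : b ≤ 1 / 2) (hx : 0 ≤ x) (hz : 0 ≤ z) (hxz : x + z ≤ b) :
    -(1 - (1 - b) ^ 4) * (x + z) ^ 2 + (x + z) ^ 3 + ((1 - b) ^ 2 - 1 / 4) * (x + z) ^ 4 ≤
      (-(1 - (1 - b) ^ 4) * x ^ 2 + x ^ 3 + ((1 - b) ^ 2 - 1 / 4) * x ^ 4) +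
      (-(1 - (1 - b) ^ 4) * z ^ 2 + z ^ 3 + ((1 - b) ^ 2 - 1 / 4) * z ^ 4) := by
  have hb0 : 0 ≤ b := by linarith
  have hc : 0 ≤ (1 - b) ^ 2 - 1 / 4 := by nlinarith
  have hC : 0 ≤ 5 - 15 * b + 16 * b ^ 2 - 6 * b ^ 3 := by
    nlinarith [mul_nonneg hb0 (sub_nonneg.mpr hb), sq_nonneg (b - 1 / 2),
      mul_nonneg hb0 (sq_nonneg (b - 1 / 2))]
  have h1 : 4 * x ^ 2 + 6 * x * z + 4 * z ^ 2 ≤ 4 * b ^ 2 := by nlinarith [mul_nonneg hx hz]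
  have h2 : ((1 - b) ^ 2 - 1 / 4) * (4 * x ^ 2 + 6 * x * z + 4 * z ^ 2) ≤
      ((1 - b) ^ 2 - 1 / 4) * (4 * b ^ 2) := mul_le_mul_of_nonneg_left h1 hc
  have h3 : -2 * (1 - (1 - b) ^ 4) + 3 * (x + z) +
      ((1 - b) ^ 2 - 1 / 4) * (4 * x ^ 2 + 6 * x * z + 4 * z ^ 2) ≤ 0 := by
    have h4 : -2 * (1 - (1 - b) ^ 4) + 3 * b + ((1 - b) ^ 2 - 1 / 4) * (4 * b ^ 2) ≤ 0 := by
      nlinarith [mul_nonneg hb0 hC]
    linarith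
  nlinarith [mul_nonneg (mul_nonneg hx hz) (neg_nonneg.mpr h3)]

/-- The auxiliary function is decreasing. -/
theorem star_dec (b Y : ℝ) (hb : b ≤ 1 / 2) (hY : 0 ≤ Y) (hYb : Y ≤ b) :
    -(1 - (1 - b) ^ 4) * b ^ 2 + b ^ 3 + ((1 - b) ^ 2 - 1 / 4) * b ^ 4 ≤
      -(1 - (1 - b) ^ 4) * Y ^ 2 + Y ^ 3 + ((1 - b) ^ 2 - 1 / 4) * Y ^ 4 := by
  have hb0 : 0 ≤ b := by linarith
  have hc : 0 ≤ (1 - b) ^ 2 - 1 / 4 := by nlinarith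
  have hC : 0 ≤ 5 - 15 * b + 16 * b ^ 2 - 6 * b ^ 3 := by
    nlinarith [mul_nonneg hb0 (sub_nonneg.mpr hb), sq_nonneg (b - 1 / 2),
      mul_nonneg hb0 (sq_nonneg (b - 1 / 2))]
  have h1 : b ^ 2 + b * Y + Y ^ 2 ≤ 3 / 2 * b * (b + Y) := by nlinarith
  have h2 : ((1 - b) ^ 2 - 1 / 4) * ((b + Y) * (b ^ 2 + Y ^ 2)) ≤
      ((1 - b) ^ 2 - 1 / 4) * ((b + Y) * (2 * b ^ 2)) := by
    refine mul_le_mul_of_nonneg_left ?_ hc
    refine mul_le_mul_of_nonneg_left ?_ (by linarith)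
    nlinarith
  have h3 : 0 ≤ (1 - (1 - b) ^ 4) * (b + Y) - (b ^ 2 + b * Y + Y ^ 2) -
      ((1 - b) ^ 2 - 1 / 4) * ((b + Y) * (b ^ 2 + Y ^ 2)) := by
    have h4 : 0 ≤ (1 - (1 - b) ^ 4) * (b + Y) - 3 / 2 * b * (b + Y) -
        ((1 - b) ^ 2 - 1 / 4) * ((b + Y) * (2 * b ^ 2)) := by
      nlinarith [mul_nonneg (mul_nonneg hb0 (by linarith : 0 ≤ b + Y)) hC]
    linarith
  nlinarith [mul_nonneg (sub_nonneg.mpr hYb) h3]

theorem star_sum {ι : Type} (b : ℝ) (hb : b ≤ 1 / 2) (y : ι → ℝ) (s : Finset ι)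
    (h0 : ∀ i ∈ s, 0 ≤ y i) (hs : ∑ i ∈ s, y i ≤ b) :
    -(1 - (1 - b) ^ 4) * (∑ i ∈ s, y i) ^ 2 + (∑ i ∈ s, y i) ^ 3 +
      ((1 - b) ^ 2 - 1 / 4) * (∑ i ∈ s, y i) ^ 4 ≤
      ∑ i ∈ s, (-(1 - (1 - b) ^ 4) * y i ^ 2 + y i ^ 3 + ((1 - b) ^ 2 - 1 / 4) * y i ^ 4) := by
  classical
  induction s using Finset.induction_on with
  | empty => simp
  | insert a s ha ih =>
    rw [Finset.sum_insert ha] at hs ⊢
    rw [Finset.sum_insert ha]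
    have ha0 := h0 a (Finset.mem_insert_self a s)
    have hs0 : 0 ≤ ∑ i ∈ s, y i :=
      Finset.sum_nonneg fun i hi => h0 i (Finset.mem_insert_of_mem hi)
    have := ih (fun i hi => h0 i (Finset.mem_insert_of_mem hi)) (by linarith)
    refine (star_sub b (y a) _ hb ha0 hs0 hs).trans ?_
    linarith

theorem star : S_STAR := by
  classical
  intro m θ h0 h1
  by_cases hbig : ∀ i, θ i ≤ 1 / 2
  · exact star_small univ θ (fun i _ => h0 i) h1 (fun i _ => hbig i)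
  push Not at hbig
  obtain ⟨i0, hi0⟩ := hbig
  set a := θ i0 with ha
  set s := (univ : Finset (Fin m)).erase i0 with hs
  have hsplit : ∀ k : ℕ, ∑ i, θ i ^ k = a ^ k + ∑ i ∈ s, θ i ^ k := by
    intro k
    rw [hs, ha, ← Finset.add_sum_erase univ (fun i => θ i ^ k) (Finset.mem_univ i0)]
  have hsplit1 : ∑ i, θ i = a + ∑ i ∈ s, θ i := by
    rw [hs, ha, ← Finset.add_sum_erase univ (fun i => θ i) (Finset.mem_univ i0)]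
  have hY0 : 0 ≤ ∑ i ∈ s, θ i := Finset.sum_nonneg fun i _ => h0 i
  have hYb : ∑ i ∈ s, θ i ≤ 1 - a := by linarith
  have ha1 : a ≤ 1 := by linarith
  have hb : 1 - a ≤ 1 / 2 := by linarith
  have hsum := star_sum (1 - a) hb θ s (fun i _ => h0 i) hYb
  have hdec := star_dec (1 - a) (∑ i ∈ s, θ i) hb hY0 hYb
  have hch := hdec.trans hsum
  rw [Finset.sum_add_distrib, Finset.sum_add_distrib, ← Finset.mul_sum, ← Finset.mul_sum] at hch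
  have h26 : ∑ i ∈ s, θ i ^ 6 ≤ (∑ i ∈ s, θ i ^ 2) * ∑ i ∈ s, θ i ^ 4 := by
    rw [Finset.mul_sum]
    refine Finset.sum_le_sum fun i hi => ?_
    have h3 : θ i ^ 2 ≤ ∑ j ∈ s, θ j ^ 2 :=
      Finset.single_le_sum (f := fun j => θ j ^ 2) (fun j _ => sq_nonneg _) hi
    have h4 : 0 ≤ θ i ^ 4 := by positivity
    calc θ i ^ 6 = θ i ^ 2 * θ i ^ 4 := by ring
      _ ≤ _ := mul_le_mul_of_nonneg_right h3 h4
  rw [hsplit 2, hsplit 4, hsplit 3, hsplit 6]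
  have hp : 0 ≤ (a * (1 - a)) ^ 2 * (1 / 2 - 2 * (a * (1 - a))) := by
    refine mul_nonneg (sq_nonneg _) ?_
    nlinarith [sq_nonneg (a - 1 / 2)]
  have hid : (a * (1 - a)) ^ 2 * (1 / 2 - 2 * (a * (1 - a))) =
      (1 / 4 - a ^ 2) * (1 - a ^ 4) + a ^ 3 - a ^ 6 +
        (-(1 - (1 - (1 - a)) ^ 4) * (1 - a) ^ 2 + (1 - a) ^ 3 +
          ((1 - (1 - a)) ^ 2 - 1 / 4) * (1 - a) ^ 4) := by ring
  have e1 : (1 - (1 - a)) = a := by ring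
  rw [e1] at hch hid
  nlinarith [hch, h26, hp, hid]

end Pool.Agent.Helper60.PlzA
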