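import Pool.Agent.Helper60.PlzA.FragFinal
import Pool.Agent.Helper60.PlzA.Star
import Pool.Agent.Helper3.PlzA.GLUE
import Pool.Agent.Helper31.PlzA.RUNPL
import Pool.Agent.Helper90.PlzA.SAMP
import Pool.Agent.Helper61.PlzA.NREG
import Pool.Agent.Helper5.PlzA.EXCH
import Pool.Agent.Helper8.PlzA.EXPOS
import Pool.Agent.Helper4.PlzA.EXSUM
import Pool.Agent.Helper79.PlzA.KST
import Pool.Agent.Helper94.PlzA.PK1
import Pool.Agent.Helper77.PlzA.PK2
import Pool.Agent.Helper27.PlzA.PSTAT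
import Pool.Agent.Helper40.PlzA.WINU
import Pool.Agent.Helper13.PlzA.WINT
import Pool.Agent.Helper56.PlzA.PAIR
import Pool.Agent.Helper51.PlzA.BONE
import Pool.Agent.Helper16.PlzA.BTWO
import Pool.Agent.Helper8.PlzA.GOODEV
import Pool.Agent.Helper87.PlzA.BADCNT
import Pool.Agent.Helper9.PlzA.ERRSUM
import Pool.Agent.Helper31.PlzA.DFCSUM
import Pool.Agent.Helper67.PlzA.COST
import Pool.Agent.Helper93.PlzA.MID
import Pool.Agent.Helper59.PlzA.EQUI
import Pool.Agent.Helper19.PlzA.STARF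
import Pool.Agent.Helper38.PlzA.STARV
import Pool.Agent.Helper26.PlzA.STARG
import Pool.Agent.Helper34.PlzA.MAIN

/-!
# Everything together (MP_8e7d5e_co, project PLA)
-/

set_option autoImplicit false

namespace Pool.Agent.Helper60.PlzA

open Finset Pool.Agent.Helper93.Plz Pool.Agent.Helper60.Plz Filter

open scoped Classical Topology

theorem hEXPOS : S_EXPOS := Helper8.PlzA.expos Helper5.PlzA.exch

theorem hPSTAT : S_PSTAT :=
  Helper27.PlzA.pstat Helper4.PlzA.exsum (Helper94.PlzA.pk1 hEXPOS)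
    (Helper77.PlzA.pk2 Helper5.PlzA.exch hEXPOS Helper79.PlzA.kst)

theorem hBTWO : S_BTWO := Helper16.PlzA.btwo Helper56.PlzA.pair Helper40.PlzA.winu

theorem hBADCNT : S_BADCNT :=
  Helper87.PlzA.badcnt Helper8.PlzA.goodev Helper40.PlzA.winu Helper56.PlzA.pair
    Helper51.PlzA.bone hBTWO

theorem hERRSUM : S_ERRSUM :=
  Helper9.PlzA.errsum Helper40.PlzA.winu Helper56.PlzA.pair Helper51.PlzA.bone hBTWO

theorem hWINT : S_WINT := Helper13.PlzA.wint Helper40.PlzA.winu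

theorem hMID : S_MID := Helper93.PlzA.mid hWINT Helper51.PlzA.bone

theorem hSTARG : S_STARG :=
  Helper26.PlzA.starg (Helper38.PlzA.starv (Helper19.PlzA.starf (Helper59.PlzA.equi star)))
    Helper51.PlzA.bone

theorem hMAIN : S_MAIN := Helper34.PlzA.main hWINT hMID hSTARG

theorem hCOREK : S_COREK :=
  coreK (Helper31.PlzA.runpl Helper3.PlzA.glue) Helper67.PlzA.cost hBADCNT hERRSUM
    (Helper31.PlzA.dfcsum Helper40.PlzA.winu) hMAIN

theorem hTOPK (C : ℝ) (hC0 : 0 ≤ C) (hC4 : C < 4) : ∃ K t : ℕ, 1 ≤ t ∧ CovK K t C :=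
  topK Helper3.PlzA.glue Helper90.PlzA.samp (Helper61.PlzA.nreg Helper90.PlzA.samp) hPSTAT
    hCOREK C hC0 hC4

theorem hTOP : S_TOP := by
  intro C hC0 hC4
  obtain ⟨K, t, ht, h⟩ := hTOPK C hC0 hC4
  refine ⟨t, ht, fun V _ G S => ?_⟩
  obtain ⟨P, h1, h2, h3⟩ := h V inferInstance G S
  exact ⟨P, h1, h2.1, h3⟩

theorem hMONO : S_MONO := Helper83.PlzA.mono Helper90.PlzA.samp

/-- Every finite graph of average degree at most `d` has an induced planar subgraph on at least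
`(4 - ε) n / d` vertices whose components have at most `K` vertices, if `d ≥ d₀`. -/
theorem average_degree (ε : ℝ) (hε : 0 < ε) :
    ∃ (K : ℕ) (d₀ : ℝ), 0 < d₀ ∧ ∀ d : ℝ, d₀ ≤ d →
      ∀ (V : Type) (_ : Fintype V) (G : SimpleGraph V),
      ((∑ v, (G.neighborSet v).ncard : ℕ) : ℝ) ≤ d * Fintype.card V →
      ∃ P : Finset V, IsPlanar (G.induce (P : Set V)) ∧
        (∀ C : Set V, C ⊆ (P : Set V) → (G.induce C).Connected → C.ncard ≤ K) ∧
        (4 - ε) * Fintype.card V ≤ d * P.card := by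
  obtain ⟨K, d₀, h0, h⟩ := largeK hTOPK Helper90.PlzA.samp ε hε
  refine ⟨K, d₀, h0, fun d hd V _ G hG => ?_⟩
  obtain ⟨P, hP, hc⟩ := h d hd V inferInstance G hG
  exact ⟨P, isPlanar_of_plS hP.1, fun C hC hCc => hP.2 C hC (cn_of_connected hCc), hc⟩

end Pool.Agent.Helper60.PlzA
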