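import Pool.Agent.Helper93.Plz.Minor

/-!
# Asymptotics of the planarization constants (problem MP_8e7d5e_co): definitions

Aim: every finite graph of maximum degree at most `d` has an induced planar subgraph on at least
`(4 - o(1)) n / d` vertices, so that `d (1 - p_d)` tends to `4`.
-/

set_option autoImplicit false

namespace Pool.Agent.Helper60.PlzA

open Finset Pool.Agent.Helper93.Plz

open scoped Classical

variable {V : Type} [Fintype V]

/-! ### Neighbourhoods -/

/-- The neighbours of `v`. -/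
noncomputable def nbs (G : SimpleGraph V) (v : V) : Finset V := univ.filter fun w => G.Adj v w

/-- The degree of `v`. -/
noncomputable def dgr (G : SimpleGraph V) (v : V) : ℕ := (nbs G v).card

/-- The common neighbours of `a` and `b`. -/
noncomputable def cmn (G : SimpleGraph V) (a b : V) : Finset V :=
  univ.filter fun w => G.Adj a w ∧ G.Adj b w

/-- The number of common neighbours of `a` and `b`. -/
noncomputable def cod (G : SimpleGraph V) (a b : V) : ℕ := (cmn G a b).card

/-- The number of pairs `(x, y)` of adjacent vertices with `x ∈ X` and `y ∈ Y`. -/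
noncomputable def eb (G : SimpleGraph V) (X Y : Finset V) : ℕ :=
  ((X ×ˢ Y).filter fun p => G.Adj p.1 p.2).card

/-- The number of ordered pairs of adjacent vertices of `S` (twice the number of edges). -/
noncomputable def e2 (G : SimpleGraph V) (S : Finset V) : ℕ := eb G S S

/-- The closed neighbourhood of `T`. -/
noncomputable def cnb (G : SimpleGraph V) (T : Finset V) : Finset V :=
  univ.filter fun w => w ∈ T ∨ ∃ x ∈ T, G.Adj x w

/-- Twice the potential `t |Z| - e(Z)`. -/
noncomputable def UU (G : SimpleGraph V) (t : ℕ) (Z : Finset V) : ℝ :=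
  2 * t * (Z.card : ℝ) - e2 G Z

/-- The property that in all graphs the largest induced planar subgraph inside `S` has at least
`c * max_{Z ⊆ S} 2 (t |Z| - e(Z)) / t ^ 2` vertices. -/
def Cov (t : ℕ) (c : ℝ) : Prop :=
  ∀ (V : Type) (_ : Fintype V) (G : SimpleGraph V) (S : Finset V),
    ∃ P ⊆ S, PlS G (P : Set V) ∧ ∀ Z ⊆ S, c * UU G t Z ≤ (t : ℝ) ^ 2 * P.card

/-- The sampling hypothesis. -/
def HS (G : SimpleGraph V) (s t : ℕ) (η : ℝ) : Prop :=
  ∀ Z : Finset V, (t : ℝ) ^ 2 * UU G s Z ≤ (1 + 3 * η) * (s : ℝ) ^ 2 * UU G t univ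

/-- Ordered pairs of different nonadjacent vertices with at least `γ t` common neighbours. -/
noncomputable def bad (G : SimpleGraph V) (t : ℕ) (γ : ℝ) : Finset (V × V) :=
  univ.filter fun p => p.1 ≠ p.2 ∧ ¬ G.Adj p.1 p.2 ∧ γ * t ≤ cod G p.1 p.2

/-- The regularity properties used in the second half of the proof. -/
structure Reg (G : SimpleGraph V) (t : ℕ) (γ : ℝ) : Prop where
  deg : ∀ v, dgr G v ≤ t
  one : 1 ≤ γ * t
  dfc : ∑ v, ((t : ℝ) - dgr G v) ≤ γ * t * Fintype.card V
  few : ((bad G t γ).card : ℝ) ≤ γ * t * Fintype.card V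

/-! ### Partitions -/

/-- The number of neighbours of `x` in the part `j` of the partition `σ`. -/
noncomputable def Dp {M : ℕ} (G : SimpleGraph V) (σ : V → Fin M) (x : V) (j : Fin M) : ℕ :=
  (univ.filter fun y => G.Adj x y ∧ σ y = j).card

/-- The number of ordered pairs of adjacent vertices in the same part. -/
noncomputable def En {M : ℕ} (G : SimpleGraph V) (σ : V → Fin M) : ℕ :=
  (univ.filter fun p : V × V => G.Adj p.1 p.2 ∧ σ p.1 = σ p.2).card

/-- The partition has the least possible number of edges inside its parts. -/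
def Opt {M : ℕ} (G : SimpleGraph V) (σ : V → Fin M) : Prop := ∀ σ' : V → Fin M, En G σ ≤ En G σ'

/-- The excess of `x` in the part `j`. -/
noncomputable def exc {M : ℕ} (G : SimpleGraph V) (σ : V → Fin M) (x : V) (j : Fin M) : ℝ :=
  (Dp G σ x j : ℝ) - Dp G σ x (σ x)

/-! ### Walks -/

/-- The `i`-th vertex of a sequence of `k + 1` vertices (`0 ≤ i ≤ k`). -/
def ev {k : ℕ} (x : Fin (k + 1) → V) (i : ℕ) : V :=
  x ⟨min i k, Nat.lt_succ_of_le (min_le_right i k)⟩

/-- The walks with `k` steps. -/
noncomputable def Wk (G : SimpleGraph V) (k : ℕ) : Finset (Fin (k + 1) → V) :=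
  univ.filter fun x => ∀ i < k, G.Adj (ev x i) (ev x (i + 1))

/-- The neighbours of the index `i` are adjacent (used for `1 ≤ i ≤ k - 1`). -/
def Tr (G : SimpleGraph V) {k : ℕ} (x : Fin (k + 1) → V) (i : ℕ) : Prop :=
  G.Adj (ev x (i - 1)) (ev x (i + 1))

/-- The index `i` is kept. -/
def Kp (G : SimpleGraph V) {k : ℕ} (x : Fin (k + 1) → V) (i : ℕ) : Prop :=
  i ≤ k ∧ ¬ (3 ≤ i ∧ i + 1 ≤ k ∧ Tr G x (i - 2) ∧ Tr G x (i - 1) ∧ Tr G x i)

/-- The kept indices. -/
noncomputable def Ks (G : SimpleGraph V) {k : ℕ} (x : Fin (k + 1) → V) : Finset ℕ :=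
  (range (k + 1)).filter fun i => Kp G x i

/-- The kept vertices. -/
noncomputable def TT (G : SimpleGraph V) {k : ℕ} (x : Fin (k + 1) → V) : Finset V :=
  (Ks G x).image (ev x)

/-- Good walks: the vertices are different and two vertices are adjacent if and only if they
belong to the same run of triangles. -/
structure Good (G : SimpleGraph V) {k : ℕ} (x : Fin (k + 1) → V) : Prop where
  inj : Function.Injective x
  run : ∀ i j, i < j → j ≤ k → (G.Adj (ev x i) (ev x j) ↔ ∀ l, i < l → l < j → Tr G x l)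

/-! ### Local quantities -/

/-- The number of ordered pairs of adjacent neighbours of `v`. -/
noncomputable def rho2 (G : SimpleGraph V) (v : V) : ℕ := ∑ y ∈ nbs G v, cod G v y

/-- Edges between `N(a) \ N(b)` and `N(b)`, except those at `b`. -/
noncomputable def crs (G : SimpleGraph V) (a b : V) : ℕ :=
  ∑ u ∈ (nbs G a).filter (fun u => ¬ G.Adj b u ∧ u ≠ b), cod G b u

/-- Nonadjacent ordered pairs of different common neighbours of `a` and `b`. -/
noncomputable def nad (G : SimpleGraph V) (a b : V) : ℕ :=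
  ((cmn G a b ×ˢ cmn G a b).filter fun p => p.1 ≠ p.2 ∧ ¬ G.Adj p.1 p.2).card

/-- Common neighbours of `q` and `r` that are not adjacent to `p`, if `p` is adjacent to both. -/
noncomputable def er3 (G : SimpleGraph V) (p q r : V) : ℕ :=
  if G.Adj p q ∧ G.Adj p r then ((cmn G q r).filter fun u => u ≠ p ∧ ¬ G.Adj p u).card else 0

/-- The error term of the cost of a walk. -/
noncomputable def Err (G : SimpleGraph V) (t : ℕ) {k : ℕ} (x : Fin (k + 1) → V) : ℝ :=
  7 * ((k : ℝ) + 1) ^ 2 * t +
    ∑ i ∈ range (k + 1), ∑ p ∈ range i,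
      (2 * (crs G (ev x i) (ev x p) : ℝ) + nad G (ev x i) (ev x p) +
        if p + 2 ≤ i then 2 * t * (er3 G (ev x p) (ev x (i - 1)) (ev x i) : ℝ) else 0)

/-- The deficit of the closed neighbourhood of `T`. -/
noncomputable def Dfc (G : SimpleGraph V) (t : ℕ) (T : Finset V) : ℝ :=
  2 * ∑ w ∈ cnb G T, ((t : ℝ) - dgr G w)

/-- The gain of the index `i` of a walk. -/
noncomputable def gain (G : SimpleGraph V) (t : ℕ) (κ : ℝ) {k : ℕ} (x : Fin (k + 1) → V) (i : ℕ) :
    ℝ :=
  (1 / 4 + κ) * (t : ℝ) ^ 2 - rho2 G (ev x i) +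
    if 1 ≤ i then (cod G (ev x (i - 1)) (ev x i) : ℝ) ^ 2 else 0

/-! ### The key inequality in a finite graph -/

section Psi

variable {S : Type} (r : S → S → Prop)

/-- The indicator of `r`. -/
noncomputable def Ind (a b : S) : ℝ := if r a b then 1 else 0

/-- The function of six points whose average is the quantity of the key inequality. -/
noncomputable def Psi (g : Fin 6 → S) : ℝ :=
  1 / 4 - Ind r (g 0) (g 1) - 1 / 4 * (Ind r (g 0) (g 1) * Ind r (g 0) (g 2) * Ind r (g 0) (g 3)) +
    Ind r (g 4) (g 5) * (Ind r (g 0) (g 1) * Ind r (g 0) (g 2) * Ind r (g 0) (g 3)) +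
    Ind r (g 0) (g 1) * Ind r (g 0) (g 2) -
    Ind r (g 0) (g 1) * Ind r (g 0) (g 2) * Ind r (g 0) (g 3) * Ind r (g 0) (g 4) *
      Ind r (g 0) (g 5)

/-- The number of induced paths with three vertices in `r`. -/
noncomputable def P3 [Fintype S] : ℕ :=
  (univ.filter fun q : S × S × S => r q.1 q.2.1 ∧ r q.2.1 q.2.2 ∧ q.1 ≠ q.2.2 ∧
    ¬ r q.1 q.2.2).card

end Psi

end Pool.Agent.Helper60.PlzA
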