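import Pool.Agent.Helper60.PlzA.Top

/-!
# The end of the proof (MP_8e7d5e_co, project PLA): the asymptotics of `p_d`
-/

set_option autoImplicit false

namespace Pool.Agent.Helper60.PlzA

open Finset Pool.Agent.Helper93.Plz Pool.Agent.Helper60.Plz Filter

open scoped Classical Topology

theorem e2_le {V : Type} [Fintype V] (G : SimpleGraph V) (d : ℕ)
    (hd : ∀ v, (G.neighborSet v).ncard ≤ d) : e2 G univ ≤ d * Fintype.card V := by
  rw [e2, eb_eq_sum]
  have h1 : ∀ x : V, (∑ y, if G.Adj x y then 1 else 0) ≤ d := by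
    intro x
    refine le_trans (le_of_eq ?_) (hd x)
    rw [← Finset.card_filter, Set.ncard_eq_toFinset_card']
    congr 1
    ext y
    simp
  refine (Finset.sum_le_sum fun x _ => h1 x).trans ?_
  rw [Finset.sum_const, Finset.card_univ, smul_eq_mul, mul_comm]

/-- Large induced planar subgraphs. -/
theorem large (hT : S_TOP) (hM : S_MONO) (ε : ℝ) (hε : 0 < ε) :
    ∃ d₀ : ℕ, 1 ≤ d₀ ∧ ∀ d : ℕ, d₀ ≤ d → ∀ (V : Type) (_ : Fintype V) (G : SimpleGraph V),
      (∀ v, (G.neighborSet v).ncard ≤ d) → ∃ P : Finset V, PlS G (P : Set V) ∧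
        (4 - ε) * Fintype.card V ≤ d * P.card := by
  by_cases h4 : 4 ≤ ε
  · refine ⟨1, le_rfl, fun d _ V _ G _ => ⟨∅, by simpa using plS_empty G, ?_⟩⟩
    have : (0 : ℝ) ≤ Fintype.card V := Nat.cast_nonneg _
    simp
    nlinarith
  push Not at h4
  obtain ⟨t, ht, hcov⟩ := hT (4 - ε) (by linarith) (by linarith)
  refine ⟨t, ht, fun d hd V _ G hG => ?_⟩
  have hd1 : (1 : ℝ) ≤ d := by exact_mod_cast ht.trans hd
  obtain ⟨P, -, hP, hZ⟩ := hM t d (4 - ε) ht hd (by linarith) hcov V inferInstance G univ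
  refine ⟨P, hP, ?_⟩
  have h1 := hZ univ (Finset.subset_univ _)
  have h2 : (e2 G univ : ℝ) ≤ d * Fintype.card V := by exact_mod_cast e2_le G d hG
  have h3 : (d : ℝ) * Fintype.card V ≤ UU G d univ := by
    rw [UU, Finset.card_univ]
    linarith
  have h4' : (4 - ε) * ((d : ℝ) * Fintype.card V) ≤ (d : ℝ) ^ 2 * P.card :=
    (mul_le_mul_of_nonneg_left h3 (by linarith)).trans h1
  have h5 : (d : ℝ) * ((4 - ε) * Fintype.card V) ≤ d * (d * P.card) := by
    calc _ = (4 - ε) * ((d : ℝ) * Fintype.card V) := by ring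
      _ ≤ _ := h4'
      _ = _ := by ring
  exact le_of_mul_le_mul_left h5 (by linarith)

theorem pd_upper (hT : S_TOP) (hM : S_MONO) (ε : ℝ) (hε : 0 < ε) :
    ∃ d₀ : ℕ, ∀ d : ℕ, d₀ ≤ d → 4 - ε ≤ (d : ℝ) * (1 - pd d) := by
  obtain ⟨d₀, hd₀, hl⟩ := large hT hM ε hε
  refine ⟨max d₀ 4, fun d hd => ?_⟩
  have hd0 : d₀ ≤ d := (le_max_left _ _).trans hd
  have hd4 : 4 ≤ d := (le_max_right _ _).trans hd
  have hdR : (4 : ℝ) ≤ d := by exact_mod_cast hd4
  have hdpos : (0 : ℝ) < d := by linarith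
  set S := {μ : ℝ | ∀ ε > 0, ∃ N : ℕ, ∀ (V : Type) (_ : Fintype V) (G : SimpleGraph V),
    G.Connected → (∀ v, (G.neighborSet v).ncard ≤ d) → N ≤ Fintype.card V →
      (planarization G : ℝ) ≤ (μ + ε) * Fintype.card V} with hS
  have hmem : 1 - (4 - ε) / d ∈ S := by
    intro δ hδ
    refine ⟨0, fun V _ G _ hG _ => ?_⟩
    obtain ⟨P, hP, hc⟩ := hl d hd0 V inferInstance G hG
    have h1 : planarization G ≤ (Finset.univ \ P).card := by
      refine Nat.sInf_le ⟨Finset.univ \ P, rfl, ?_⟩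
      have he : {v | v ∉ Finset.univ \ P} = (P : Set V) := by
        ext v
        simp
      rw [he]
      exact isPlanar_of_plS hP
    have h2 : ((Finset.univ \ P).card : ℝ) + P.card = Fintype.card V := by
      rw [← Finset.card_univ]
      exact_mod_cast Finset.card_sdiff_add_card_eq_card (Finset.subset_univ P)
    have h3 : (planarization G : ℝ) ≤ ((Finset.univ \ P).card : ℝ) := by exact_mod_cast h1
    have h4 : ((4 - ε) / d) * (Fintype.card V : ℝ) ≤ P.card := by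
      rw [div_mul_eq_mul_div, div_le_iff₀ hdpos]
      linarith
    have h5 : (0 : ℝ) ≤ Fintype.card V := Nat.cast_nonneg _
    nlinarith
  have hpd : pd d ≤ 1 - (4 - ε) / d := by
    change sInf S ≤ _
    by_cases hb : BddBelow S
    · exact csInf_le hb hmem
    · rw [Real.sInf_of_not_bddBelow hb]
      rw [sub_nonneg, div_le_one hdpos]
      linarith
  have h1 : (4 - ε) / d ≤ 1 - pd d := by linarith
  rw [div_le_iff₀ hdpos] at h1
  linarith

theorem pd_lower (hL : ∀ a b : ℕ, 2 ≤ a → 2 ≤ b → (1 : ℝ) - 1 / a - 1 / b ≤ pd (a + b - 2))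
    (d : ℕ) (hd : 2 ≤ d) : (d : ℝ) * (1 - pd d) ≤ 4 := by
  rcases Nat.even_or_odd' d with ⟨m, hm | hm⟩
  · have h1 := hL (m + 1) (m + 1) (by omega) (by omega)
    have e1 : m + 1 + (m + 1) - 2 = d := by omega
    rw [e1] at h1
    have hdm : (d : ℝ) = 2 * m := by rw [hm]; push_cast; ring
    have hm0 : (0 : ℝ) ≤ m := Nat.cast_nonneg _
    push_cast at h1
    have h2 : (d : ℝ) * (1 - pd d) ≤ d * (1 / (m + 1) + 1 / (m + 1)) :=
      mul_le_mul_of_nonneg_left (by linarith) (Nat.cast_nonneg _)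
    refine h2.trans ?_
    rw [hdm, ← add_div, mul_div_assoc', div_le_iff₀ (by linarith)]
    linarith
  · have h1 := hL (m + 1) (m + 2) (by omega) (by omega)
    have e1 : m + 1 + (m + 2) - 2 = d := by omega
    rw [e1] at h1
    have hdm : (d : ℝ) = 2 * m + 1 := by rw [hm]; push_cast; ring
    have hm0 : (0 : ℝ) ≤ m := Nat.cast_nonneg _
    push_cast at h1
    have h2 : (d : ℝ) * (1 - pd d) ≤ d * (1 / (m + 1) + 1 / (m + 2)) :=
      mul_le_mul_of_nonneg_left (by linarith) (Nat.cast_nonneg _)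
    refine h2.trans ?_
    rw [hdm, div_add_div _ _ (by positivity) (by positivity), mul_div_assoc',
      div_le_iff₀ (by positivity)]
    nlinarith

theorem final (hT : S_TOP) (hM : S_MONO)
    (hL : ∀ a b : ℕ, 2 ≤ a → 2 ≤ b → (1 : ℝ) - 1 / a - 1 / b ≤ pd (a + b - 2)) :
    (∀ ε : ℝ, 0 < ε → ∃ d₀ : ℕ, ∀ d : ℕ, d₀ ≤ d →
      ∀ (V : Type) (_ : Fintype V) (G : SimpleGraph V), (∀ v, (G.neighborSet v).ncard ≤ d) →
        ∃ P : Finset V, IsPlanar (G.induce (P : Set V)) ∧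
          (4 - ε) * Fintype.card V ≤ d * P.card) ∧
    Tendsto (fun d : ℕ => (d : ℝ) * (1 - pd d)) atTop (𝓝 4) := by
  refine ⟨?_, ?_⟩
  · intro ε hε
    obtain ⟨d₀, -, h⟩ := large hT hM ε hε
    refine ⟨d₀, fun d hd V _ G hG => ?_⟩
    obtain ⟨P, hP, hc⟩ := h d hd V inferInstance G hG
    exact ⟨P, isPlanar_of_plS hP, hc⟩
  · rw [Metric.tendsto_atTop]
    intro ε hε
    obtain ⟨d₀, h⟩ := pd_upper hT hM (ε / 2) (by positivity)
    refine ⟨max d₀ 2, fun d hd => ?_⟩
    have h1 := h d ((le_max_left _ _).trans hd)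
    have h2 := pd_lower hL d ((le_max_right _ _).trans hd)
    rw [Real.dist_eq, abs_lt]
    constructor <;> linarith

end Pool.Agent.Helper60.PlzA
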