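import Pool.Agent.Helper60.PlzA.Top
import Pool.Agent.Helper37.PlzA.CORE
import Pool.Agent.Helper75.PlzA.FIND
import Pool.Agent.Helper83.PlzA.MONO
import Pool.Agent.Helper61.PlzA.BASE

/-!
# Induced planar subgraphs with bounded components (MP_8e7d5e_co, project PLA)
-/

set_option autoImplicit false

namespace Pool.Agent.Helper60.PlzA

open Finset Pool.Agent.Helper93.Plz

open scoped Classical

/-- Planar, and every connected subset has at most `K` elements. -/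
def QS {V : Type} (K : ℕ) (G : SimpleGraph V) (S : Set V) : Prop :=
  PlS G S ∧ ∀ C ⊆ S, Cn G C → C.ncard ≤ K

/-- The analogue of `Cov` with components of at most `K` vertices. -/
def CovK (K t : ℕ) (c : ℝ) : Prop :=
  ∀ (V : Type) (_ : Fintype V) (G : SimpleGraph V) (S : Finset V),
    ∃ P ⊆ S, QS K G (P : Set V) ∧ ∀ Z ⊆ S, c * UU G t Z ≤ (t : ℝ) ^ 2 * P.card

/-- CORE with a bound for the number of vertices of `T`. -/
def S_COREK : Prop :=
  ∀ κ : ℝ, 0 < κ → ∃ (γ : ℝ) (K : ℕ), 0 < γ ∧ γ ≤ 1 ∧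
    ∀ (V : Type) (_ : Fintype V) (_ : Nonempty V) (G : SimpleGraph V) (t : ℕ), Reg G t γ →
    ∃ T : Finset V, T.Nonempty ∧ PlS G (T : Set V) ∧ T.card ≤ K ∧
      (e2 G (cnb G T) : ℝ) + Dfc G t T ≤ (1 / 4 + κ) * (t : ℝ) ^ 2 * T.card

section core

open Pool.Agent.Helper37.PlzA

theorem coreK (h1 : S_RUNPL) (h2 : S_COST) (h3 : S_BADCNT) (h4 : S_ERRSUM) (h5 : S_DFCSUM)
    (h6 : S_MAIN) : S_COREK := by
  intro κ hκ
  set κ' : ℝ := min κ (1 / 4) with hκ'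
  have k0 : 0 < κ' := lt_min hκ (by norm_num)
  have k1 : κ' ≤ 1 / 4 := min_le_right _ _
  have k2 : κ' ≤ κ := min_le_left _ _
  obtain ⟨k', hk'⟩ := exists_nat_ge (1 / κ')
  set k : ℕ := k' + 4 with hk
  have kk : 1 ≤ κ' * ((k : ℝ) - 3) := by
    have : (1 : ℝ) = κ' * (1 / κ') := by field_simp
    rw [this]
    apply mul_le_mul_of_nonneg_left _ k0.le
    rw [hk]; push_cast; linarith
  obtain ⟨γ₀, g0, hmain⟩ := h6 κ' k k0 k1 (by omega) kk
  have hK : (0 : ℝ) < 24 * ((k : ℝ) + 1) ^ 3 := by positivity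
  refine ⟨min (min γ₀ 1) (κ' / (24 * ((k : ℝ) + 1) ^ 3)), k + 1, ?_, ?_, ?_⟩
  · exact lt_min (lt_min g0 one_pos) (div_pos k0 hK)
  · exact le_trans (min_le_left _ _) (min_le_right _ _)
  intro V _ _ G t hR
  set γ : ℝ := min (min γ₀ 1) (κ' / (24 * ((k : ℝ) + 1) ^ 3)) with hγ
  have γ0 : 0 < γ := lt_min (lt_min g0 one_pos) (div_pos k0 hK)
  have γ1 : γ ≤ γ₀ := le_trans (min_le_left _ _) (min_le_left _ _)
  have γ2 : 24 * ((k : ℝ) + 1) ^ 3 * γ ≤ κ' := by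
    have : γ ≤ κ' / (24 * ((k : ℝ) + 1) ^ 3) := min_le_right _ _
    rw [le_div_iff₀ hK] at this
    linarith
  by_contra hcon
  push Not at hcon
  have hd := hR.deg
  have t1 : (1 : ℝ) ≤ t := by
    by_contra h
    have : t = 0 := by
      have h' : (t : ℝ) < 1 := not_le.1 h
      have : t < 1 := by exact_mod_cast h'
      omega
    have h1' := hR.one
    rw [this] at h1'
    simp at h1'
    linarith
  -- good walks
  have good : ∀ x ∈ Wk G k, Good G x →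
      ∑ i ∈ Ks G x, gain G t κ' x i ≤ Err G t x + Dfc G t (TT G x) := by
    intro x hx hg
    have c1 := h2 V inferInstance G t k x hd hx hg
    have hcard : (TT G x).card ≤ k + 1 := by
      rw [card_TT G x hg.inj]
      unfold Ks
      exact (card_filter_le _ _).trans (le_of_eq (card_range _))
    have c2 := hcon (TT G x) (TT_nonempty G x) (h1 V inferInstance G k x hg) hcard
    rw [card_TT G x hg.inj] at c2
    have c3 : ∑ i ∈ Ks G x, gain G t κ' x i = (Ks G x).card * ((1 / 4 + κ') * (t : ℝ) ^ 2) -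
        ∑ i ∈ Ks G x, ((rho2 G (ev x i) : ℝ) -
          if 1 ≤ i then (cod G (ev x (i - 1)) (ev x i) : ℝ) ^ 2 else 0) := by
      rw [← nsmul_eq_mul, ← sum_const, ← sum_sub_distrib]
      refine sum_congr rfl (fun i _ => ?_)
      unfold gain
      ring
    have c4 : (Ks G x).card * ((1 / 4 + κ') * (t : ℝ) ^ 2) ≤
        (1 / 4 + κ) * (t : ℝ) ^ 2 * ((Ks G x).card : ℝ) := by
      have : (0 : ℝ) ≤ ((Ks G x).card : ℝ) * (t : ℝ) ^ 2 := by positivity
      nlinarith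
    rw [c3]
    linarith
  have all : ∀ x ∈ Wk G k, ∑ i ∈ Ks G x, gain G t κ' x i ≤
      Err G t x + Dfc G t (TT G x) +
        (if ¬ Good G x then 2 * ((k : ℝ) + 1) * (t : ℝ) ^ 2 else 0) := by
    intro x hx
    by_cases hg : Good G x
    · rw [if_neg (not_not.2 hg), add_zero]
      exact good x hx hg
    · rw [if_pos hg]
      have e1 := Err_nonneg G t x
      have e2 := Dfc_nonneg G t hd (TT G x)
      have e3 : ∑ i ∈ Ks G x, gain G t κ' x i ≤ (Ks G x).card • (2 * (t : ℝ) ^ 2) :=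
        sum_le_card_nsmul _ _ _ (fun i _ => gain_le G t hd κ' k1 x i)
      have e4 : ((Ks G x).card : ℝ) ≤ (k : ℝ) + 1 := by
        have : (Ks G x).card ≤ k + 1 := by
          unfold Ks
          calc _ ≤ (range (k + 1)).card := card_filter_le _ _
            _ = k + 1 := card_range _
        exact_mod_cast this
      rw [nsmul_eq_mul] at e3
      have e5 : ((Ks G x).card : ℝ) * (2 * (t : ℝ) ^ 2) ≤ ((k : ℝ) + 1) * (2 * (t : ℝ) ^ 2) :=
        mul_le_mul_of_nonneg_right e4 (by positivity)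
      linarith
  have s1 := hmain V inferInstance G t γ γ0 γ1 hR
  have s2 := sum_le_sum all
  rw [sum_add_distrib, sum_add_distrib, ← sum_filter, sum_const, nsmul_eq_mul] at s2
  have s3 := h3 V inferInstance G t γ hR k
  have s4 := h4 V inferInstance G t γ hR k
  have s5 := h5 V inferInstance G t γ hR k
  have s6 : (((Wk G k).filter fun x => ¬ Good G x).card : ℝ) * (2 * ((k : ℝ) + 1) * (t : ℝ) ^ 2)
      ≤ (4 * ((k : ℝ) + 1) ^ 2 * γ * Fintype.card V * (t : ℝ) ^ k) *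
        (2 * ((k : ℝ) + 1) * (t : ℝ) ^ 2) :=
    mul_le_mul_of_nonneg_right s3 (by positivity)
  have n1 : (1 : ℝ) ≤ (Fintype.card V : ℝ) := by exact_mod_cast Fintype.card_pos
  set X : ℝ := (Fintype.card V : ℝ) * (t : ℝ) ^ (k + 2) with hX
  have X0 : 0 < X := by positivity
  have s7 : 2 * κ' * X ≤ (12 * ((k : ℝ) + 1) ^ 2 + 4 * ((k : ℝ) + 1) +
      8 * ((k : ℝ) + 1) ^ 3) * γ * X := by
    have q1 : (4 * ((k : ℝ) + 1) ^ 2 * γ * Fintype.card V * (t : ℝ) ^ k) *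
        (2 * ((k : ℝ) + 1) * (t : ℝ) ^ 2) = 8 * ((k : ℝ) + 1) ^ 3 * γ * X := by
      rw [hX, pow_add]; ring
    rw [q1] at s6
    have q2 : 2 * κ' * X = 2 * κ' * Fintype.card V * (t : ℝ) ^ (k + 2) := by rw [hX]; ring
    have q3 : 12 * ((k : ℝ) + 1) ^ 2 * γ * X =
        12 * ((k : ℝ) + 1) ^ 2 * γ * Fintype.card V * (t : ℝ) ^ (k + 2) := by rw [hX]; ring
    have q4 : 4 * ((k : ℝ) + 1) * γ * X =
        4 * ((k : ℝ) + 1) * γ * Fintype.card V * (t : ℝ) ^ (k + 2) := by rw [hX]; ring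
    have q5 : (12 * ((k : ℝ) + 1) ^ 2 + 4 * ((k : ℝ) + 1) + 8 * ((k : ℝ) + 1) ^ 3) * γ * X =
        12 * ((k : ℝ) + 1) ^ 2 * γ * X + 4 * ((k : ℝ) + 1) * γ * X +
          8 * ((k : ℝ) + 1) ^ 3 * γ * X := by ring
    rw [q5, q2, q3, q4]
    linarith
  have s8 : 2 * κ' ≤ (12 * ((k : ℝ) + 1) ^ 2 + 4 * ((k : ℝ) + 1) +
      8 * ((k : ℝ) + 1) ^ 3) * γ := le_of_mul_le_mul_right s7 X0
  have hk1 : (1 : ℝ) ≤ (k : ℝ) + 1 := by
    have : (0 : ℝ) ≤ k := Nat.cast_nonneg _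
    linarith
  have s9 : 12 * ((k : ℝ) + 1) ^ 2 + 4 * ((k : ℝ) + 1) + 8 * ((k : ℝ) + 1) ^ 3 ≤
      24 * ((k : ℝ) + 1) ^ 3 := by
    have a1 : ((k : ℝ) + 1) ^ 2 ≤ ((k : ℝ) + 1) ^ 3 := pow_le_pow_right₀ hk1 (by norm_num)
    have a2 : ((k : ℝ) + 1) ≤ ((k : ℝ) + 1) ^ 3 := le_self_pow₀ hk1 (by norm_num)
    linarith
  have s10 : (12 * ((k : ℝ) + 1) ^ 2 + 4 * ((k : ℝ) + 1) + 8 * ((k : ℝ) + 1) ^ 3) * γ ≤
      24 * ((k : ℝ) + 1) ^ 3 * γ := mul_le_mul_of_nonneg_right s9 γ0.le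
  linarith

end core

end Pool.Agent.Helper60.PlzA
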