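import Pool.Agent.Helper60.PlzA.FragTop
import Pool.Agent.Helper60.PlzA.Final

/-!
# The final statements with bounded components (MP_8e7d5e_co, project PLA)
-/

set_option autoImplicit false

namespace Pool.Agent.Helper60.PlzA

open Finset Pool.Agent.Helper93.Plz Pool.Agent.Helper60.Plz Filter

open scoped Classical Topology

theorem e2_eq_sum_ncard {V : Type} [Fintype V] (G : SimpleGraph V) :
    e2 G univ = ∑ v, (G.neighborSet v).ncard := by
  rw [e2, eb_eq_sum]
  refine Finset.sum_congr rfl fun x _ => ?_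
  rw [← Finset.card_filter, Set.ncard_eq_toFinset_card']
  congr 1
  ext y
  simp

theorem cn_of_connected {V : Type} {G : SimpleGraph V} {C : Set V}
    (h : (G.induce C).Connected) : Cn G C := by
  refine ⟨?_, ?_⟩
  · obtain ⟨⟨x, hx⟩⟩ := h.nonempty
    exact ⟨x, hx⟩
  · intro T hT hne hTC
    obtain ⟨a, ha⟩ := hne
    obtain ⟨b, hb, hbT⟩ : ∃ b ∈ C, b ∉ T := by
      by_contra hcon
      push Not at hcon
      exact hTC (Set.Subset.antisymm hT hcon)
    obtain ⟨x, y, hxy, hx, hy⟩ := exists_adj_of_connected h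
      (fun z : ↥C => (z : V) ∈ T) (a := ⟨a, hT ha⟩) (b := ⟨b, hb⟩) ha hbT
    exact ⟨x, hx, y, y.2, hy, hxy⟩

/-- Large induced planar subgraphs with bounded components, in all graphs of average degree at
most `d`. -/
theorem largeK (hT : ∀ C : ℝ, 0 ≤ C → C < 4 → ∃ K t : ℕ, 1 ≤ t ∧ CovK K t C) (hS : S_SAMP)
    (ε : ℝ) (hε : 0 < ε) :
    ∃ (K : ℕ) (d₀ : ℝ), 0 < d₀ ∧ ∀ d : ℝ, d₀ ≤ d →
      ∀ (V : Type) (_ : Fintype V) (G : SimpleGraph V),
      ((∑ v, (G.neighborSet v).ncard : ℕ) : ℝ) ≤ d * Fintype.card V →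
      ∃ P : Finset V, QS K G (P : Set V) ∧ (4 - ε) * Fintype.card V ≤ d * P.card := by
  by_cases h4 : 4 ≤ ε
  · refine ⟨1, 1, one_pos, fun d _ V _ G _ => ⟨∅, by simpa using qs_empty 1 G, ?_⟩⟩
    have : (0 : ℝ) ≤ Fintype.card V := Nat.cast_nonneg _
    simp
    nlinarith
  push Not at h4
  obtain ⟨K, t, ht, hcov⟩ := hT (4 - ε / 2) (by linarith) (by linarith)
  refine ⟨K, max t (8 / ε), ?_, fun d hd V _ G hG => ?_⟩
  · exact lt_of_lt_of_le (by positivity) (le_max_right _ _)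
  have hdt : (t : ℝ) ≤ d := (le_max_left _ _).trans hd
  have hdε : 8 / ε ≤ d := (le_max_right _ _).trans hd
  have ht1 : (1 : ℝ) ≤ t := by exact_mod_cast ht
  have hd0 : 0 < d := by linarith
  set T : ℕ := ⌈d⌉₊ with hTdef
  have hT1 : d ≤ T := Nat.le_ceil d
  have hT2 : (T : ℝ) < d + 1 := Nat.ceil_lt_add_one hd0.le
  have htT : t ≤ T := by exact_mod_cast hdt.trans hT1
  have hT0 : (0 : ℝ) < T := by linarith
  obtain ⟨P, -, hP, hZ⟩ := monoK hS K t T (4 - ε / 2) ht htT (by linarith) hcov V inferInstance G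
    univ
  refine ⟨P, hP, ?_⟩
  have h1 := hZ univ (Finset.subset_univ _)
  have h2 : (e2 G univ : ℝ) ≤ d * Fintype.card V := by
    rw [e2_eq_sum_ncard]
    exact hG
  have hn : (0 : ℝ) ≤ Fintype.card V := Nat.cast_nonneg _
  have h3 : (T : ℝ) * Fintype.card V ≤ UU G T univ := by
    rw [UU, Finset.card_univ]
    nlinarith
  have h4' : (4 - ε / 2) * ((T : ℝ) * Fintype.card V) ≤ (T : ℝ) ^ 2 * P.card :=
    (mul_le_mul_of_nonneg_left h3 (by linarith)).trans h1
  have h5 : (T : ℝ) * ((4 - ε / 2) * Fintype.card V) ≤ T * (T * P.card) := by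
    calc _ = (4 - ε / 2) * ((T : ℝ) * Fintype.card V) := by ring
      _ ≤ _ := h4'
      _ = _ := by ring
  have h6 : (4 - ε / 2) * Fintype.card V ≤ T * P.card := le_of_mul_le_mul_left h5 hT0
  have h7 : (T : ℝ) * P.card ≤ (d + 1) * P.card :=
    mul_le_mul_of_nonneg_right hT2.le (Nat.cast_nonneg _)
  have h8 : (P.card : ℝ) ≤ Fintype.card V := by
    rw [← Finset.card_univ]
    exact_mod_cast Finset.card_le_card (Finset.subset_univ P)
  -- `(4 - ε) n (d + 1) ≤ (4 - ε / 2) n d`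
  have h9 : (4 - ε) * (d + 1) ≤ (4 - ε / 2) * d := by
    have : 8 ≤ d * ε := by
      rw [div_le_iff₀ hε] at hdε
      exact hdε
    nlinarith
  have h10 : (d + 1) * ((4 - ε) * Fintype.card V) ≤ (d + 1) * (d * P.card) := by
    calc (d + 1) * ((4 - ε) * Fintype.card V) = ((4 - ε) * (d + 1)) * Fintype.card V := by ring
      _ ≤ ((4 - ε / 2) * d) * Fintype.card V := mul_le_mul_of_nonneg_right h9 hn
      _ = d * ((4 - ε / 2) * Fintype.card V) := by ring
      _ ≤ d * ((d + 1) * P.card) := mul_le_mul_of_nonneg_left (h6.trans h7) hd0.le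
      _ = _ := by ring
  exact le_of_mul_le_mul_left h10 (by linarith)

end Pool.Agent.Helper60.PlzA
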