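import Pool.Agent.Helper60.PlzA.FragCore

/-!
# Induced planar subgraphs with bounded components (MP_8e7d5e_co, project PLA)
-/

set_option autoImplicit false

namespace Pool.Agent.Helper60.PlzA

open Finset Pool.Agent.Helper93.Plz

open scoped Classical

theorem qs_empty {V : Type} (K : ℕ) (G : SimpleGraph V) : QS K G (∅ : Set V) := by
  refine ⟨plS_empty G, fun C hC hCn => ?_⟩
  obtain ⟨x, hx⟩ := hCn.1
  exact absurd (hC hx) (Set.notMem_empty x)

theorem qs_mono {V : Type} {K K' : ℕ} (h : K ≤ K') {G : SimpleGraph V} {S : Set V}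
    (hS : QS K G S) : QS K' G S := ⟨hS.1, fun C hC hCn => (hS.2 C hC hCn).trans h⟩

theorem qs_of_card {V : Type} {K : ℕ} {G : SimpleGraph V} {T : Finset V} (hT : PlS G (T : Set V))
    (hc : T.card ≤ K) : QS K G (T : Set V) := by
  refine ⟨hT, fun C hC _ => ?_⟩
  refine le_trans ?_ hc
  rw [← Set.ncard_coe_finset]
  exact Set.ncard_le_ncard hC (Finset.finite_toSet T)

theorem qs_union (h1 : S_GLUE) {V : Type} {K : ℕ} {G : SimpleGraph V} {S T : Set V}
    (hd : Disjoint S T) (hn : ∀ x ∈ S, ∀ y ∈ T, ¬ G.Adj x y) (hS : QS K G S) (hT : QS K G T) :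
    QS K G (S ∪ T) := by
  refine ⟨h1 V G S T ?_ (fun x hx y hy h => absurd h (hn x hx y hy)) hS.1 hT.1, ?_⟩
  · rw [Set.disjoint_iff_inter_eq_empty.1 hd]
    exact Set.subsingleton_empty
  · intro C hC hCn
    by_cases h : (C ∩ S).Nonempty
    · have hCS : C ⊆ S := by
        by_contra hcon
        have hne : C ∩ S ≠ C := fun he => hcon (he ▸ Set.inter_subset_right)
        obtain ⟨x, hx, y, hy, hyS, hxy⟩ := hCn.2 (C ∩ S) Set.inter_subset_left h hne
        have hyT : y ∈ T := (hC hy).resolve_left fun hy' => hyS ⟨hy, hy'⟩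
        exact hn x hx.2 y hyT hxy
      exact hS.2 C hCS hCn
    · have hCT : C ⊆ T := by
        intro x hx
        exact (hC hx).resolve_left fun hx' => h ⟨x, hx, hx'⟩
      exact hT.2 C hCT hCn

theorem qs_comap {V V' : Type} {K : ℕ} {G : SimpleGraph V} {f : V' → V}
    (hf : Function.Injective f) (A : Set V') : QS K (G.comap f) A ↔ QS K G (f '' A) := by
  unfold QS
  rw [Pool.Agent.Helper75.PlzA.plS_comap hf]
  refine and_congr_right fun _ => ⟨fun h C hC hCn => ?_, fun h C hC hCn => ?_⟩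
  · have hC' : f '' (f ⁻¹' C) = C :=
      Set.image_preimage_eq_of_subset (hC.trans (Set.image_subset_range f A))
    rw [← hC', Set.ncard_image_of_injective _ hf]
    refine h _ ?_ ?_
    · intro x hx
      obtain ⟨y, hy, hyx⟩ := hC hx
      rwa [← hf hyx]
    · rw [Pool.Agent.Helper75.PlzA.cn_comap hf, hC']
      exact hCn
  · rw [← Set.ncard_image_of_injective _ hf]
    exact h _ (Set.image_mono hC) ((Pool.Agent.Helper75.PlzA.cn_comap hf _).1 hCn)

section find

open Pool.Agent.Helper75.PlzA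

/-- a finite set of vertices is deficient -/
def DfnK (K : ℕ) {V : Type} [Fintype V] (t : ℕ) (c : ℝ) (G : SimpleGraph V) (S : Finset V) : Prop :=
  ∀ P ⊆ S, QS K G (P : Set V) → ∃ Z ⊆ S, (t : ℝ) ^ 2 * P.card < c * UU G t Z

theorem findK_core (h1 : S_GLUE) (K : ℕ) {V' : Type} [Fintype V'] (t : ℕ) (c : ℝ) (hc : 0 < c)
    (G' : SimpleGraph V') (hd1 : DfnK K t c G' univ)
    (hd2 : ∀ A : Finset V', A ≠ univ → ¬ DfnK K t c G' A) :
    Nonempty V' ∧ (∀ Z : Finset V', UU G' t Z ≤ UU G' t univ) ∧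
      (∀ P : Finset V', QS K G' (P : Set V') → (t : ℝ) ^ 2 * P.card < c * UU G' t univ) ∧
      ∀ T : Finset V', T.Nonempty → QS K G' (T : Set V') →
        (t : ℝ) ^ 2 * T.card < c * (e2 G' (cnb G' T) + Dfc G' t T) := by
  -- the potential is maximal at `univ`
  have hmax : ∀ Z : Finset V', UU G' t Z ≤ UU G' t univ := by
    obtain ⟨Z0, _, hZ0⟩ := Finset.exists_max_image (univ : Finset (Finset V')) (UU G' t)
      ⟨univ, Finset.mem_univ _⟩
    have h3 : DfnK K t c G' Z0 := by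
      intro P _ hP
      obtain ⟨Z, _, h⟩ := hd1 P (Finset.subset_univ _) hP
      refine ⟨Z0, Finset.Subset.refl _, lt_of_lt_of_le h ?_⟩
      exact mul_le_mul_of_nonneg_left (hZ0 Z (Finset.mem_univ _)) hc.le
    have h4 : Z0 = univ := by
      by_contra h5
      exact hd2 Z0 h5 h3
    intro Z
    have := hZ0 Z (Finset.mem_univ _)
    rwa [h4] at this
  have hpl : ∀ P : Finset V', QS K G' (P : Set V') → (t : ℝ) ^ 2 * P.card < c * UU G' t univ := by
    intro P hP
    obtain ⟨Z, _, h⟩ := hd1 P (Finset.subset_univ _) hP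
    exact lt_of_lt_of_le h (mul_le_mul_of_nonneg_left (hmax Z) hc.le)
  refine ⟨?_, hmax, hpl, ?_⟩
  · by_contra hne
    rw [not_nonempty_iff] at hne
    have h3 := hpl ∅ (by rw [Finset.coe_empty]; exact qs_empty K G')
    have h4 : UU G' t univ = 0 := by
      unfold UU e2 eb
      simp [Finset.univ_eq_empty]
    rw [h4] at h3
    simp at h3
  · intro T hT hTp
    have hTC : T ⊆ cnb G' T := fun x hx => by
      unfold cnb
      simp [hx]
    have h3 : (cnb G' T)ᶜ ≠ univ := by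
      intro h4
      obtain ⟨x, hx⟩ := hT
      have : x ∈ (cnb G' T)ᶜ := by rw [h4]; exact Finset.mem_univ _
      exact (Finset.mem_compl.1 this) (hTC hx)
    have h4 := hd2 _ h3
    unfold DfnK at h4
    push Not at h4
    obtain ⟨P, hP, hPp, h5⟩ := h4
    have h6 := h5 _ (Finset.Subset.refl _)
    have hdis : Disjoint T P := by
      rw [Finset.disjoint_left]
      intro x hx hxP
      exact (Finset.mem_compl.1 (hP hxP)) (hTC hx)
    have h7 : QS K G' ((T ∪ P : Finset V') : Set V') := by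
      rw [Finset.coe_union]
      refine qs_union h1 (Finset.disjoint_coe.2 hdis) ?_ hTp hPp
      · intro x hx y hy hxy
        apply Finset.mem_compl.1 (hP hy)
        unfold cnb
        rw [Finset.mem_filter]
        exact ⟨Finset.mem_univ _, Or.inr ⟨x, hx, hxy⟩⟩
    have h8 := hpl _ h7
    rw [Finset.card_union_of_disjoint hdis] at h8
    push_cast at h8
    have h9 := UU_compl G' t (cnb G' T)
    have h10 : (e2 G' (cnb G' T) : ℝ) + Dfc G' t T = UU G' t univ - UU G' t (cnb G' T)ᶜ := by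
      rw [h9]
      rfl
    rw [h10, mul_sub]
    nlinarith [h8, h6]

theorem findK (h1 : S_GLUE) (K t : ℕ) (c : ℝ) (hc : 0 < c) (hcov : ¬ CovK K t c) :
    ∃ (V : Type) (_ : Fintype V) (G : SimpleGraph V), Nonempty V ∧
      (∀ Z : Finset V, UU G t Z ≤ UU G t univ) ∧
      (∀ P : Finset V, QS K G (P : Set V) → (t : ℝ) ^ 2 * P.card < c * UU G t univ) ∧
      ∀ T : Finset V, T.Nonempty → QS K G (T : Set V) →
        (t : ℝ) ^ 2 * T.card < c * (e2 G (cnb G T) + Dfc G t T) := by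
  -- a deficient set
  obtain ⟨V, iV, G, S0, hS0⟩ : ∃ (V : Type) (_ : Fintype V) (G : SimpleGraph V) (S : Finset V),
      DfnK K t c G S := by
    by_contra hcon
    push Not at hcon
    apply hcov
    intro V iV G S
    have := hcon V iV G S
    unfold DfnK at this
    push Not at this
    obtain ⟨P, hP, hPl, h⟩ := this
    exact ⟨P, hP, hPl, h⟩
  obtain ⟨S, hS, hmin⟩ := Finset.exists_min_image (univ.filter fun S : Finset V => DfnK K t c G S)
    Finset.card ⟨S0, by simp [hS0]⟩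
  have hSd : DfnK K t c G S := (Finset.mem_filter.1 hS).2
  have hSmin : ∀ A : Finset V, DfnK K t c G A → S.card ≤ A.card := fun A hA =>
    hmin A (Finset.mem_filter.2 ⟨Finset.mem_univ _, hA⟩)
  -- transfer to the induced graph
  let V' : Type := {x : V // x ∈ S}
  let f : V' ↪ V := Function.Embedding.subtype _
  let G' : SimpleGraph V' := G.comap f
  have hinj : Function.Injective f := f.injective
  have hmap : ∀ A : Finset V, A ⊆ S → ∃ A' : Finset V', A'.map f = A := by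
    intro A hA
    refine ⟨A.subtype _, ?_⟩
    rw [Finset.subtype_map, Finset.filter_eq_self]
    exact fun x hx => hA hx
  have hsub : ∀ A : Finset V', A.map f ⊆ S := by
    intro A x hx
    obtain ⟨y, _, rfl⟩ := Finset.mem_map.1 hx
    exact y.2
  have hcardS : Fintype.card V' = S.card := Fintype.card_coe S
  have hPl : ∀ A : Finset V', QS K G' (A : Set V') ↔ QS K G (A.map f : Set V) := by
    intro A
    rw [qs_comap hinj, Finset.coe_map]
  have hU : ∀ A : Finset V', UU G' t A = UU G t (A.map f) := fun A => UU_comap G f t A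
  have hd1 : DfnK K t c G' univ := by
    intro P _ hP
    obtain ⟨Z, hZ, h⟩ := hSd (P.map f) (hsub P) ((hPl P).1 hP)
    obtain ⟨Z', rfl⟩ := hmap Z hZ
    refine ⟨Z', Finset.subset_univ _, ?_⟩
    rw [hU]
    rwa [Finset.card_map] at h
  have hd2 : ∀ A : Finset V', A ≠ univ → ¬ DfnK K t c G' A := by
    intro A hA hD
    have hlt : A.card < S.card := by
      rw [← hcardS, ← Finset.card_univ]
      exact Finset.card_lt_card (Finset.ssubset_univ_iff.2 hA)
    have h3 : DfnK K t c G (A.map f) := by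
      intro P hP hPp
      obtain ⟨P', rfl⟩ := hmap P (hP.trans (hsub A))
      have h4 : P' ⊆ A := Finset.map_subset_map.1 hP
      obtain ⟨Z, hZ, h⟩ := hD P' h4 ((hPl P').2 hPp)
      refine ⟨Z.map f, Finset.map_subset_map.2 hZ, ?_⟩
      rw [← hU, Finset.card_map]
      exact h
    have h5 := hSmin _ h3
    rw [Finset.card_map] at h5
    omega
  exact ⟨V', inferInstance, G', findK_core h1 K t c hc G' hd1 hd2⟩

end find

theorem monoK (h1 : S_SAMP) (K t t' : ℕ) (c : ℝ) (ht : 1 ≤ t) (htt' : t ≤ t') (hc : 0 ≤ c)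
    (hcov : CovK K t c) : CovK K t' c := by
  intro V inst G S
  obtain ⟨P, hPS, hPl, hP⟩ := hcov V inst G S
  refine ⟨P, hPS, hPl, fun Z hZ => ?_⟩
  have ht0 : (0 : ℝ) < t := by exact_mod_cast ht
  have ht'0 : (0 : ℝ) < t' := by exact_mod_cast lt_of_lt_of_le ht htt'
  have hle : (t : ℝ) ≤ t' := by exact_mod_cast htt'
  set q : ℝ := (t : ℝ) / t' with hq
  have hq0 : 0 ≤ q := by positivity
  have hq1 : q ≤ 1 := (div_le_one ht'0).2 hle
  obtain ⟨Z', hZ', hU⟩ := h1 V inst G t (fun v => if v ∈ Z then q else 0)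
    (fun v => by split_ifs <;> [exact hq0; exact le_rfl])
    (fun v => by split_ifs <;> [exact hq1; exact zero_le_one])
  have hsub : Z' ⊆ Z := by
    intro v hv
    by_contra hvZ
    exact hZ' v hv (if_neg hvZ)
  have hs1 : ∑ v, (if v ∈ Z then q else 0) = q * Z.card := by
    rw [Finset.sum_ite_mem, Finset.univ_inter, Finset.sum_const, nsmul_eq_mul, mul_comm]
  have hs2 : ∑ v, ∑ w ∈ nbs G v, (if v ∈ Z then q else 0) * (if w ∈ Z then q else 0) =
      q ^ 2 * e2 G Z := by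
    rw [Pool.Agent.Helper83.PlzA.e2_eq, Finset.mul_sum]
    rw [← Finset.sum_subset (Finset.subset_univ Z)]
    · refine Finset.sum_congr rfl fun v hv => ?_
      rw [if_pos hv, Finset.mul_sum]
      unfold nbs
      rw [Finset.sum_filter]
      rw [← Finset.sum_subset (Finset.subset_univ Z)]
      · refine Finset.sum_congr rfl fun w hw => ?_
        rw [if_pos hw]
        split_ifs <;> ring
      · intro w _ hw
        rw [if_neg hw, mul_zero, ite_self]
    · intro v _ hv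
      refine Finset.sum_eq_zero fun w _ => ?_
      rw [if_neg hv, zero_mul]
  simp only [hs1, hs2] at hU
  have hkey : q ^ 2 * UU G t' Z ≤ UU G t Z' := by
    refine le_trans (le_of_eq ?_) hU
    unfold UU
    rw [hq]
    field_simp
  have h2 := hP Z' (hsub.trans hZ)
  have h3 : c * (q ^ 2 * UU G t' Z) ≤ (t : ℝ) ^ 2 * P.card :=
    (mul_le_mul_of_nonneg_left hkey hc).trans h2
  have h4 : c * UU G t' Z = ((t' : ℝ) ^ 2 / t ^ 2) * (c * (q ^ 2 * UU G t' Z)) := by
    rw [hq]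
    field_simp
  rw [h4]
  calc ((t' : ℝ) ^ 2 / t ^ 2) * (c * (q ^ 2 * UU G t' Z))
      ≤ ((t' : ℝ) ^ 2 / t ^ 2) * ((t : ℝ) ^ 2 * P.card) :=
        mul_le_mul_of_nonneg_left h3 (by positivity)
    _ = (t' : ℝ) ^ 2 * P.card := by
        field_simp


theorem baseK : CovK 1 1 (1 / 2) := by
  intro V _ G S
  have hne : (S.powerset.filter fun P : Finset V => QS 1 G (P : Set V)).Nonempty := by
    refine ⟨∅, ?_⟩
    rw [mem_filter, mem_powerset, coe_empty]
    exact ⟨empty_subset S, qs_empty 1 G⟩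
  obtain ⟨P, hP, hmax⟩ := exists_max_image _ Finset.card hne
  rw [mem_filter, mem_powerset] at hP
  refine ⟨P, hP.1, hP.2, fun Z hZ => ?_⟩
  obtain ⟨I, hI, hI1, hI2⟩ := Pool.Agent.Helper61.PlzA.exists_indep G Z.card Z rfl
  have h1 : I.card ≤ P.card := by
    apply hmax
    rw [mem_filter, mem_powerset]
    refine ⟨hI.trans hZ, Pool.Agent.Helper61.PlzA.plS_indep G I hI1, fun C hC hCn => ?_⟩
    by_contra hcon
    push Not at hcon
    obtain ⟨x, hx⟩ := hCn.1
    have hne : ({x} : Set V) ≠ C := by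
      intro he
      rw [← he, Set.ncard_singleton] at hcon
      exact lt_irrefl _ hcon
    obtain ⟨a, ha, b, hb, -, hab⟩ := hCn.2 {x} (Set.singleton_subset_iff.2 hx)
      (Set.singleton_nonempty x) hne
    rw [Set.mem_singleton_iff] at ha
    subst ha
    exact hI1 a (hC hx) b (hC hb) hab
  have h2 : (2 * Z.card : ℝ) ≤ 2 * I.card + e2 G Z := by exact_mod_cast hI2
  have h3 : (I.card : ℝ) ≤ P.card := by exact_mod_cast h1
  unfold UU
  push_cast
  linarith

theorem covK_anti {K t : ℕ} {c c' : ℝ} (h0 : 0 ≤ c) (hc : c ≤ c') (h : CovK K t c') :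
    CovK K t c := by
  intro V _ G S
  obtain ⟨P, hPS, hP, h1⟩ := h V inferInstance G S
  refine ⟨P, hPS, hP, fun Z hZ => ?_⟩
  have h2 := h1 Z hZ
  have h3 : (0 : ℝ) ≤ (t : ℝ) ^ 2 * P.card := by positivity
  by_cases hU : 0 ≤ UU G t Z
  · exact (mul_le_mul_of_nonneg_right hc hU).trans h2
  · push Not at hU
    nlinarith

theorem covK_mono {K K' t : ℕ} {c : ℝ} (hK : K ≤ K') (h : CovK K t c) : CovK K' t c := by
  intro V _ G S
  obtain ⟨P, hPS, hP, h1⟩ := h V inferInstance G S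
  exact ⟨P, hPS, qs_mono hK hP, h1⟩

theorem topK (hG : S_GLUE) (hS : S_SAMP) (hN : S_NREG) (hP : S_PSTAT) (hC : S_COREK) (C : ℝ)
    (hC0 : 0 ≤ C) (hC4 : C < 4) : ∃ K t : ℕ, 1 ≤ t ∧ CovK K t C := by
  by_contra hcon
  push Not at hcon
  set A : Set ℝ := {c | 0 ≤ c ∧ ∃ K t : ℕ, 1 ≤ t ∧ CovK K t c} with hA
  have hub : ∀ c ∈ A, c ≤ C := by
    rintro c ⟨hc0, K, t, ht, hcov⟩
    by_contra hlt
    push Not at hlt
    exact hcon K t ht (covK_anti hC0 hlt.le hcov)
  have hbdd : BddAbove A := ⟨C, hub⟩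
  have hhalf : (1 / 2 : ℝ) ∈ A := ⟨by norm_num, 1, 1, le_rfl, baseK⟩
  set c0 := sSup A with hc0
  have hc0half : 1 / 2 ≤ c0 := le_csSup hbdd hhalf
  have hc0C : c0 ≤ C := csSup_le ⟨_, hhalf⟩ hub
  have hc0pos : 0 < c0 := by linarith
  set δ : ℝ := (4 - C) / 4 with hδ
  have hδ0 : 0 < δ := by rw [hδ]; linarith
  have hδ1 : δ ≤ 1 := by rw [hδ]; linarith
  obtain ⟨γ, K₂, hγ0, hγ1, hcore⟩ := hC (δ / 16) (by positivity)
  obtain ⟨η₁, hη1, s₀, hs0, hps⟩ := hP γ hγ0 hγ1
  set η : ℝ := min (min η₁ (1 / 3)) (min (γ ^ 2 / 16) (δ / 2)) with hη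
  have hη0 : 0 < η := by
    rw [hη]
    refine lt_min (lt_min hη1 (by norm_num)) (lt_min (by positivity) (by positivity))
  have hηa : η ≤ η₁ := (min_le_left _ _).trans (min_le_left _ _)
  have hηb : η ≤ 1 / 3 := (min_le_left _ _).trans (min_le_right _ _)
  have hηc : η ≤ γ ^ 2 / 16 := (min_le_right _ _).trans (min_le_left _ _)
  have hηd : η ≤ δ / 2 := (min_le_right _ _).trans (min_le_right _ _)
  -- a good `s`
  have hlt : (1 - η) * c0 < sSup A := by rw [← hc0]; nlinarith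
  obtain ⟨c', ⟨hc'0, K₁, t', ht', hcov'⟩, hc'⟩ := exists_lt_of_lt_csSup ⟨_, hhalf⟩ hlt
  have hnn : 0 ≤ (1 - η) * c0 := mul_nonneg (by linarith) hc0pos.le
  set s := max s₀ t' with hs
  have hs1 : 1 ≤ s := hs0.trans (le_max_left _ _)
  set K := max K₁ K₂ with hK
  have hcs : CovK K s ((1 - η) * c0) :=
    monoK hS K t' s _ ht' (le_max_right _ _) hnn
      (covK_mono (le_max_left _ _) (covK_anti hnn hc'.le hcov'))
  obtain ⟨M₀, hM0⟩ := hps s (le_max_left _ _)
  -- a good `M`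
  obtain ⟨N1, hN1⟩ := exists_nat_ge (1 / γ)
  obtain ⟨N2, hN2⟩ := exists_nat_ge (1 / η)
  set M := max M₀ (N1 + N2) with hMdef
  have hsR : (1 : ℝ) ≤ s := by exact_mod_cast hs1
  have hMN : ((N1 + N2 : ℕ) : ℝ) ≤ M := by exact_mod_cast le_max_right _ _
  push_cast at hMN
  have hγM : 1 ≤ γ * M := by
    have : 1 / γ ≤ (M : ℝ) := by
      have : (0 : ℝ) ≤ N2 := Nat.cast_nonneg _
      linarith
    rw [div_le_iff₀ hγ0] at this
    linarith
  have hηM : 1 ≤ η * M := by
    have : 1 / η ≤ (M : ℝ) := by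
      have : (0 : ℝ) ≤ N1 := Nat.cast_nonneg _
      linarith
    rw [div_le_iff₀ hη0] at this
    linarith
  have hM1 : 1 ≤ M := by
    by_contra h
    have : M = 0 := by omega
    rw [this] at hγM
    simp at hγM
    linarith
  set t := M * s with ht
  have ht1 : 1 ≤ t := Nat.mul_pos hM1 hs1
  have htR : (t : ℝ) = M * s := by rw [ht]; push_cast; ring
  have hnot : ¬ CovK K t ((1 + η) * c0) := by
    intro h
    have : (1 + η) * c0 ≤ c0 := le_csSup hbdd ⟨by positivity, K, t, ht1, h⟩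
    nlinarith
  obtain ⟨V, _, G, hne, hopt, hpl, hT⟩ := findK hG K t ((1 + η) * c0) (by positivity) hnot
  have hdeg : ∀ v, dgr G v ≤ t := deg_le G t hopt
  have hU0 : 0 ≤ UU G t univ := by
    have := hopt ∅
    rw [UU_empty] at this
    exact this
  have hHS : HS G s t η := by
    intro Z
    obtain ⟨P, -, hPp, hPZ⟩ := hcs V inferInstance G univ
    have h1 := hPZ Z (Finset.subset_univ Z)
    have h2 := hpl P hPp
    have h3 : (1 - η) * c0 * ((t : ℝ) ^ 2 * UU G s Z) ≤
        (s : ℝ) ^ 2 * ((1 + η) * c0 * UU G t univ) := by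
      have e1 : (t : ℝ) ^ 2 * ((1 - η) * c0 * UU G s Z) ≤
          (t : ℝ) ^ 2 * ((s : ℝ) ^ 2 * P.card) := mul_le_mul_of_nonneg_left h1 (by positivity)
      have e2' : (s : ℝ) ^ 2 * ((t : ℝ) ^ 2 * P.card) ≤
          (s : ℝ) ^ 2 * ((1 + η) * c0 * UU G t univ) :=
        mul_le_mul_of_nonneg_left h2.le (by positivity)
      calc (1 - η) * c0 * ((t : ℝ) ^ 2 * UU G s Z) = (t : ℝ) ^ 2 * ((1 - η) * c0 * UU G s Z) := by
            ring
        _ ≤ (t : ℝ) ^ 2 * ((s : ℝ) ^ 2 * P.card) := e1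
        _ = (s : ℝ) ^ 2 * ((t : ℝ) ^ 2 * P.card) := by ring
        _ ≤ _ := e2'
    have h4 : (1 - η) * ((t : ℝ) ^ 2 * UU G s Z) ≤ (1 + η) * ((s : ℝ) ^ 2 * UU G t univ) := by
      have : c0 * ((1 - η) * ((t : ℝ) ^ 2 * UU G s Z)) ≤
          c0 * ((1 + η) * ((s : ℝ) ^ 2 * UU G t univ)) := by
        calc _ = (1 - η) * c0 * ((t : ℝ) ^ 2 * UU G s Z) := by ring
          _ ≤ _ := h3
          _ = _ := by ring
      exact le_of_mul_le_mul_left this hc0pos
    have h5 : 0 ≤ (s : ℝ) ^ 2 * UU G t univ := mul_nonneg (by positivity) hU0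
    have h6 : (1 + η) ≤ (1 - η) * (1 + 3 * η) := by nlinarith
    have h7 : (1 - η) * ((t : ℝ) ^ 2 * UU G s Z) ≤
        (1 - η) * ((1 + 3 * η) * ((s : ℝ) ^ 2 * UU G t univ)) := by
      calc _ ≤ _ := h4
        _ ≤ ((1 - η) * (1 + 3 * η)) * ((s : ℝ) ^ 2 * UU G t univ) :=
          mul_le_mul_of_nonneg_right h6 h5
        _ = _ := by ring
    have h8 := le_of_mul_le_mul_left h7 (by linarith : 0 < 1 - η)
    linarith
  have hHS1 : HS G s (M * s) η₁ := by
    intro Z
    have h1 := hHS Z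
    have h5 : 0 ≤ (s : ℝ) ^ 2 * UU G t univ := mul_nonneg (by positivity) hU0
    have h2 : (1 + 3 * η) * ((s : ℝ) ^ 2 * UU G t univ) ≤
        (1 + 3 * η₁) * ((s : ℝ) ^ 2 * UU G t univ) :=
      mul_le_mul_of_nonneg_right (by linarith) h5
    rw [← ht]
    calc _ ≤ _ := h1
      _ = (1 + 3 * η) * ((s : ℝ) ^ 2 * UU G t univ) := by ring
      _ ≤ _ := h2
      _ = _ := by ring
  have hn : (0 : ℝ) ≤ Fintype.card V := Nat.cast_nonneg _
  have hreg : Reg G t γ := by
    refine ⟨hdeg, ?_, ?_, ?_⟩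
    · rw [htR]
      nlinarith
    · have h1 := hN V inferInstance G s t η hs1 hη0 (by linarith) (by
        rw [htR]; nlinarith) hdeg hHS
      refine h1.trans ?_
      have h2 : 4 * √η ≤ γ := by
        have h3 : √η ≤ √(γ ^ 2 / 16) := Real.sqrt_le_sqrt hηc
        have h4 : √(γ ^ 2 / 16) = γ / 4 := by
          rw [show γ ^ 2 / 16 = (γ / 4) ^ 2 by ring]
          exact Real.sqrt_sq (by positivity)
        rw [h4] at h3
        linarith
      have h5 : (0 : ℝ) ≤ t * Fintype.card V := by positivity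
      calc 4 * √η * t * Fintype.card V = (4 * √η) * (t * Fintype.card V) := by ring
        _ ≤ γ * (t * Fintype.card V) := mul_le_mul_of_nonneg_right h2 h5
        _ = _ := by ring
    · exact hM0 M (le_max_left _ _) V inferInstance G hdeg hHS1
  obtain ⟨T, hTne, hTp, hTc, hTle⟩ := hcore V inferInstance hne G t hreg
  have h1 := hT T hTne (qs_of_card hTp (hTc.trans (le_max_right _ _)))
  have h2 : 0 < (t : ℝ) ^ 2 * T.card := by
    have : (0 : ℝ) < t := by exact_mod_cast ht1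
    have h3 : (0 : ℝ) < T.card := by exact_mod_cast hTne.card_pos
    positivity
  have h3 : (1 + η) * c0 * ((e2 G (cnb G T) : ℝ) + Dfc G t T) ≤
      (1 + η) * c0 * ((1 / 4 + δ / 16) * (t : ℝ) ^ 2 * T.card) :=
    mul_le_mul_of_nonneg_left hTle (by positivity)
  have h4 : (1 + η) * c0 * (1 / 4 + δ / 16) ≤ 1 := by
    have e1 : (1 + η) * c0 ≤ (1 + δ / 2) * C := by
      calc (1 + η) * c0 ≤ (1 + δ / 2) * c0 := mul_le_mul_of_nonneg_right (by linarith) hc0pos.le
        _ ≤ (1 + δ / 2) * C := mul_le_mul_of_nonneg_left hc0C (by positivity)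
    have e2' : (1 + η) * c0 * (1 / 4 + δ / 16) ≤ (1 + δ / 2) * C * (1 / 4 + δ / 16) :=
      mul_le_mul_of_nonneg_right e1 (by positivity)
    have e3 : C = 4 - 4 * δ := by rw [hδ]; ring
    rw [e3] at e2'
    nlinarith [sq_nonneg δ, mul_nonneg hδ0.le hδ0.le, mul_nonneg (mul_nonneg hδ0.le hδ0.le) hδ0.le]
  have h5 : (1 + η) * c0 * ((1 / 4 + δ / 16) * (t : ℝ) ^ 2 * T.card) ≤ (t : ℝ) ^ 2 * T.card := by
    calc _ = ((1 + η) * c0 * (1 / 4 + δ / 16)) * ((t : ℝ) ^ 2 * T.card) := by ring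
      _ ≤ 1 * ((t : ℝ) ^ 2 * T.card) := mul_le_mul_of_nonneg_right h4 h2.le
      _ = _ := by ring
  linarith

end Pool.Agent.Helper60.PlzA
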