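import Pool.Agent.Helper60.PlzA.Defs

/-!
# Project PLA (MP_8e7d5e_co): `d (1 - p_d) → 4`: the goals

The whole proof. Let `U_t(Z) = t |Z| - e(Z)`, `M_t(S) = max_{Z ⊆ S} U_t(Z)`, `Φ_t = 2 M_t / t ^ 2`
and let `c_t` be the infimum of `pl(S) / Φ_t(S)` over all finite graphs, `pl` the size of a largest
induced planar subgraph (`Cov t c` says `c ≤ c_t`). `c_t` is nondecreasing (random sampling, MONO)
and at least `1/2` (BASE). A graph of maximum degree `d` has `Φ_d ≥ n / d`. So everything follows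
from `sup c_t ≥ 4`. Suppose that `sup c_t < 4`. A minimal graph `F` with `pl(F) < (1+η) c_t Φ_t(F)`
has maximum degree at most `t` and planar sets `T` of it have expensive closed neighbourhoods
(FIND); comparing with `c_s` for a fixed large `s` (and `t = M s` much larger) shows that `F` is
nearly regular of degree `t` (NREG) and that an optimal partition of `F` in `M` parts is nearly
equitable (EXSUM). The optimality of the partition (EXCH) and the Kovari-Sos-Turan theorem (KST)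
show that few nonadjacent pairs have many common neighbours (PK1, PK2, PSTAT), so `F` looks like
a linear hypergraph locally. The kept vertices of a random walk then give a cheap planar set
(CORE), with the help of the inequality STAR. All statements below have complete proofs in their
docstrings.
-/

set_option autoImplicit false

namespace Pool.Agent.Helper60.PlzA

open Finset Pool.Agent.Helper93.Plz

open scoped Classical

/-! ### Part 1: planarity -/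

/-- **GLUE**: gluing two planar sets along at most one vertex. (`PlS`, `MinorIn`, `Cn` are in
`Pool/Agent/Helper93/Plz/Minor.lean`; see `minor_comp` there.)

Proof. Let `K` be `K_5` or `K_{3,3}`, and let `f` be a `K`-model in `S₁ ∪ S₂`.

Case 1: no branch set meets `S₁ ∩ S₂`. Every branch set `f w` is contained in `S₁` or in `S₂`: if it
meets `S₁`, then the cut condition of `Cn` for `T = f w ∩ S₁`, if `T ≠ f w`, gives an edge from
`x ∈ S₁` to `y ∈ f w`, `y ∉ S₁`, so `y ∈ S₂`, and by hypothesis `x ∈ S₂` or `y ∈ S₁`, so `x ∈ S₁ ∩ S₂`,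
which is impossible. If `f w ⊆ S₁` and `w'` is adjacent to `w` then `f w' ⊆ S₁` (the edge between
them lies in `S₁` or in `S₂`, and no vertex of the model is in `S₁ ∩ S₂`). As `K` is connected, all
branch sets are in `S₁`, or all are in `S₂`: contradiction with `PlS G S₁`, `PlS G S₂`.

Case 2: some branch set `f w₀` contains the only point `a` of `S₁ ∩ S₂`. The other branch sets avoid
`a`, so as before each of them is in `S₁ \ {a}` or in `S₂ \ {a}`, and since `K - w₀` is connected they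
are all in the same one, say `S₁ \ {a}`. Replace `f w₀` by `f w₀ ∩ S₁`. It is still `Cn`: let `T` be a
nonempty proper subset of it. If `a ∉ T`, the cut edge `x y` of `f w₀` for `T` has `x ∈ S₁`, `x ≠ a`,
so `x ∉ S₂` and `y ∈ S₁`. If `a ∈ T`, take the cut edge for `T ∪ (f w₀ \ S₁)`: `y ∈ S₁ \ T`, so `y ≠ a`
and `y ∉ S₂`, so `x ∈ S₁` (if `x ∉ S₁` then `x ∈ S₂` and the edge `y x` with `y ∈ S₁`, `x ∈ S₂` gives
`y ∈ S₂` or `x ∈ S₁`), so `x ∈ T`. The edges between `f w₀` and the other branch sets, which are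
in `S₁ \ {a}`, have both ends in `S₁`, for the same reason. So there is a `K`-model in `S₁`. -/
def S_GLUE : Prop :=
  ∀ (V : Type) (G : SimpleGraph V) (S₁ S₂ : Set V), (S₁ ∩ S₂).Subsingleton →
    (∀ x ∈ S₁, ∀ y ∈ S₂, G.Adj x y → x ∈ S₂ ∨ y ∈ S₁) → PlS G S₁ → PlS G S₂ → PlS G (S₁ ∪ S₂)

/-- **RUNPL** (from GLUE): the kept vertices of a good walk induce a planar graph.

Proof. Call `b ≤ k` a boundary if `b = 0`, or `b = k`, or `¬ Tr G x b`. Boundaries are kept. For a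
boundary `m` let `P m = {x_i : i kept, i ≤ m}`. Claim: `PlS G (P m)`, by strong induction on `m`.
`m = 0`: one vertex (`plS_comp` with `Z = S`, `plS_empty`). `m > 0`: let `a` be the largest boundary
`< m`. All `l` with `a < l < m` have `Tr G x l`. If `a + 3 ≤ i < m` then `i - 2, i - 1, i` are in this
range, so `i` is not kept; so `R = {x_i : i kept, a ≤ i ≤ m}` is contained in
`{x_a, x_(a+1), x_(a+2), x_m}`, has at most `4` elements, and is `PlS` (`plS_comp` with `Z = R`).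
`P m = P a ∪ R`, `P a ∩ R = {x_a}` by injectivity, and if `i < a < j` then `x_i`, `x_j` are not
adjacent, because by `Good.run` this would give `Tr G x a`. Apply GLUE. Finally `P k = TT G x`. -/
def S_RUNPL : Prop :=
  ∀ (V : Type) (_ : Fintype V) (G : SimpleGraph V) (k : ℕ) (x : Fin (k + 1) → V),
    Good G x → PlS G (TT G x : Set V)

/-! ### Part 2: the potential -/

/-- **BASE**. Proof. Given `S` let `P ⊆ S` be a subset with `PlS G P` of the largest size. Let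
`Z ⊆ S`. There is an independent set `I ⊆ Z` with `2 |Z| ≤ 2 |I| + e2 G Z`: induction on `|Z|`; if `Z`
is not independent it has adjacent vertices `u`, `v`, and `e2 G (Z.erase u) + 2 ≤ e2 G Z`. An
independent set is `PlS` (`plS_insert` with `H' = H`, or `plS_comp` with `|Z| = 1`, and induction), so
`|I| ≤ |P|`, and `(1/2) UU G 1 Z = |Z| - e2 G Z / 2 ≤ |P|`. -/
def S_BASE : Prop := Cov 1 (1 / 2)

/-- **SAMP** (random sampling, derandomized). Proof. Induction on the number of `v` with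
`p v ≠ 0, 1`. The function `φ(p) = 2 s ∑ p v - ∑ v, ∑ w ∈ nbs G v, p v p w` is affine in each
variable `p v` (there are no loops), so one of the two values `0`, `1` of `p v` does not
decrease it. When all values are `0` or `1` take `Z = {v | p v = 1}`. The variables equal to `0` are
never changed. -/
def S_SAMP : Prop :=
  ∀ (V : Type) (_ : Fintype V) (G : SimpleGraph V) (s : ℕ) (p : V → ℝ), (∀ v, 0 ≤ p v) →
    (∀ v, p v ≤ 1) → ∃ Z : Finset V, (∀ v ∈ Z, p v ≠ 0) ∧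
      2 * s * ∑ v, p v - ∑ v, ∑ w ∈ nbs G v, p v * p w ≤ UU G s Z

/-- **MONO** (from SAMP). Proof. Let `P` be the set given by `Cov t c` for `S`, and `Z ⊆ S`. Apply
SAMP to `p = t / t'` on `Z` and `0` outside: there is `Z' ⊆ Z` with
`UU G t Z' ≥ (t / t') ^ 2 * UU G t' Z`. -/
def S_MONO : Prop := ∀ (t t' : ℕ) (c : ℝ), 1 ≤ t → t ≤ t' → 0 ≤ c → Cov t c → Cov t' c

/-- **FIND** (from GLUE): the minimal counterexample. Proof. Call a finite set `S` of vertices of a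
graph `G` deficient if for all `P ⊆ S` with `PlS G P` there is `Z ⊆ S` with
`t ^ 2 |P| < c * UU G t Z`. By hypothesis there are `G` and a deficient `S`; choose `S` with `|S|`
minimal (in this graph `G`). `S ≠ ∅` (`P = ∅`, `Z = ∅` would give `0 < 0`).

(a) Let `Z₀ ⊆ S` maximize `UU G t`. Then `Z₀` is deficient (for `P ⊆ Z₀`, `t ^ 2 |P| < c UU(Z) ≤ c UU(Z₀)`
for some `Z ⊆ S`). So `Z₀ = S`, and `UU(Z) ≤ UU(S)` for all `Z ⊆ S`, and `t ^ 2 |P| < c UU(S)` for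
all `P ⊆ S` with `PlS G P`.

(b) Let `T ⊆ S` be nonempty with `PlS G T`, `C` the closed neighbourhood of `T` inside `S` and
`S' = S \ C`. `S'` is not deficient, so there is `P' ⊆ S'` with `PlS G P'` and
`c UU(S') ≤ t ^ 2 |P'|`. There is no edge between `T` and `P'`, so `PlS G (T ∪ P')` by GLUE, and
`t ^ 2 (|T| + |P'|) < c UU(S)`. Hence `t ^ 2 |T| < c (UU(S) - UU(S'))`, and
`UU(S) - UU(S') = 2 t |C| - (e2 S - e2 S') = 2 t |C| - 2 ∑_(w ∈ C) d_S(w) + e2 C`.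

(c) Transfer everything to the graph `G.induce S` on the type of the elements of `S`: `PlS` of a
set `T` of the induced graph gives `PlS G` of its image (a model inside the image of `T` can be
pulled back), `e2`, `nbs`, `cnb`, `dgr` correspond. -/
def S_FIND : Prop :=
  ∀ (t : ℕ) (c : ℝ), 1 ≤ t → 0 < c → ¬ Cov t c →
    ∃ (V : Type) (_ : Fintype V) (G : SimpleGraph V), Nonempty V ∧
      (∀ Z : Finset V, UU G t Z ≤ UU G t univ) ∧
      (∀ P : Finset V, PlS G (P : Set V) → (t : ℝ) ^ 2 * P.card < c * UU G t univ) ∧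
      ∀ T : Finset V, T.Nonempty → PlS G (T : Set V) →
        (t : ℝ) ^ 2 * T.card < c * (e2 G (cnb G T) + Dfc G t T)

/-- **NREG** (from SAMP). Proof. Let `p v = s / max (d_v) s ∈ (0, 1]`. As `p v * p w ≤ (p v ^ 2 +
p w ^ 2) / 2`, SAMP gives `Z` with
`UU G s Z ≥ ∑ (2 s p v - d_v (p v) ^ 2) ≥ ∑ s p v = ∑ s ^ 2 / max (d_v) s`. By `HS`,
`t ^ 2 ∑ s ^ 2 / max (d_v) s ≤ (1 + 3 η) s ^ 2 ∑ (2 t - d_v)` (note `UU G t univ = ∑ (2 t - d_v)`).
Put `y_v = max (d_v) s / t ∈ (0, 1]` (`s ≤ η t ≤ t`). So `∑ 1 / y_v ≤ (1 + 3 η) ∑ (2 - d_v / t)`. As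
`2 - d_v / t ≤ 2` and `2 - d_v / t ≤ 2 - y_v + η`, `∑ (1 / y_v - (2 - y_v)) ≤ 7 η n`. Now
`1 / y - (2 - y) = (1 - y) ^ 2 / y ≥ (1 - y) ^ 2`, so `∑ (1 - y_v) ^ 2 ≤ 7 η n`, and by
Cauchy-Schwarz `∑ (1 - y_v) ≤ √(7 η) n`. Finally `1 - d_v / t ≤ 1 - y_v + η`, and
`√(7 η) + η ≤ (2.65 + 1) √η`. -/
def S_NREG : Prop :=
  ∀ (V : Type) (_ : Fintype V) (G : SimpleGraph V) (s t : ℕ) (η : ℝ), 1 ≤ s → 0 < η → η ≤ 1 →
    (s : ℝ) ≤ η * t → (∀ v, dgr G v ≤ t) → HS G s t η →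
      ∑ v, ((t : ℝ) - dgr G v) ≤ 4 * √η * t * Fintype.card V

/-! ### Part 3: partitions -/

/-- **EXCH** (exchange). Proof. Compare `σ` with `σ'`, equal to `i` on `Y`, to `j` on `X` and to `σ`
elsewhere. Let `A u v` be the adjacency indicator and `Z = X ∪ Y` (disjoint).
`En σ' - En σ = ∑_(u,v) A u v ([σ' u = σ' v] - [σ u = σ v])`.
* Pairs outside `Z`: `0`.
* `u ∈ Z`, `v ∉ Z`, counted twice (symmetry). For `u ∈ X`:
`∑_(v ∉ Z) A u v ([j u = σ v] - [i = σ v]) ≤ exc u (j u) + (number of neighbours of u in X)`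
(the vertices `v ∈ Z` with `σ v = i` are those of `X`). For `u ∈ Y`:
`∑_(v ∉ Z) A u v ([i = σ v] - [σ u = σ v]) = exc u i - (number of neighbours of u in X)`
(the vertices `v ∈ Z` with `σ v = σ u` are only `v = u`, as `σ` is injective on `Y`).
* `X × X`: `[j u = j v] - 1`, that is `-1` for `u ≠ v`: total `- e2 X`. `Y × Y`: `1 - 0` for `u ≠ v`:
total `e2 Y`. `X × Y`, `Y × X`: `0` (`j x ≠ i`, `σ y ≠ i`).
Sum: `2 ∑_X exc x (j x) + 2 e2 X + 2 ∑_Y exc y i - 2 eb X Y - e2 X + e2 Y ≥ En σ' - En σ ≥ 0`. -/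
def S_EXCH : Prop :=
  ∀ (V : Type) (_ : Fintype V) (G : SimpleGraph V) (M : ℕ) (σ : V → Fin M), Opt G σ →
    ∀ (i : Fin M) (X Y : Finset V) (j : V → Fin M), (∀ x ∈ X, σ x = i) → (∀ y ∈ Y, σ y ≠ i) →
      Set.InjOn σ (Y : Set V) → Set.InjOn j (X : Set V) → (∀ x ∈ X, j x ≠ i) →
      2 * (eb G X Y : ℝ) ≤
        2 * ∑ y ∈ Y, exc G σ y i + 2 * ∑ x ∈ X, exc G σ x (j x) + e2 G X + e2 G Y

/-- **EXPOS** (from EXCH): the excess is not negative, and a vertex of degree at most `M s` has at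
most `s` neighbours in its own part. Proof. EXCH with `X = {x}`, `Y = ∅` and `j x` the given part
(if `j x = σ x` there is nothing to prove). Then `M * Dp x (σ x) ≤ ∑ j, Dp x j = d_x ≤ M s`. -/
def S_EXPOS : Prop :=
  ∀ (V : Type) (_ : Fintype V) (G : SimpleGraph V) (M : ℕ) (σ : V → Fin M), Opt G σ →
    (∀ x j, 0 ≤ exc G σ x j) ∧
    ∀ (s : ℕ) (x : V), dgr G x ≤ M * s → Dp G σ x (σ x) ≤ s

/-- **EXSUM**. Proof. Let `t = M s`, `n = |V|`. For the part `V_i = {v | σ v = i}`, `HS` gives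
`t ^ 2 (2 s |V_i| - e2 V_i) ≤ (1 + 3 η) s ^ 2 (2 t n - e2 univ)`. Sum over `i`:
`t ^ 2 (2 s n - En) ≤ M (1 + 3 η) s ^ 2 (2 t n - e2 univ) = (1 + 3 η) t s (2 t n - e2 univ)`. Divide by
`t`: `s (e2 univ) - t En ≤ 6 η s t n - 3 η s (e2 univ) ≤ 6 η s t n`, so `e2 univ - M En ≤ 6 η t n`. And
`∑ x, ∑ j, exc x j = ∑ x (d_x - M Dp x (σ x)) = e2 univ - M En`. -/
def S_EXSUM : Prop :=
  ∀ (V : Type) (_ : Fintype V) (G : SimpleGraph V) (M s : ℕ) (η : ℝ) (σ : V → Fin M), 1 ≤ M →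
    1 ≤ s → 0 ≤ η → HS G s (M * s) η →
      ∑ x, ∑ j, exc G σ x j ≤ 6 * η * (M * s : ℕ) * Fintype.card V

/-- **KST** (Kovari-Sos-Turan). Proof. Let `n = |N|` be large. For `z ∈ N` let
`B z = {w | (z, w) ∈ B}`. `∑ |B z| ≥ l n ^ 2`, so at least `l n / 2` vertices `z` have
`|B z| ≥ l n / 2`. Each of them has at least `(⌈l n / 2⌉ choose R) ≥ (l / 4) ^ R (n choose R)`
subsets of `R` elements (for `l n / 4 ≥ R`: `(m choose R) / (n choose R) = ∏_(q < R) (m - q) / (n - q)`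
and `(m - q) / (n - q) ≥ (m - R) / n ≥ l / 4`). If `(l n / 2) (l / 4) ^ R ≥ R` then some `R`-subset
`Z'` is contained in `B z` for at least `R` vertices `z`. -/
def S_KST : Prop :=
  ∀ (l : ℝ) (R : ℕ), 0 < l → ∃ N₀ : ℕ, ∀ (V : Type) (_ : Fintype V) (N : Finset V)
    (B : Finset (V × V)), N₀ ≤ N.card → (∀ p ∈ B, p.1 ∈ N ∧ p.2 ∈ N) →
    l * (N.card : ℝ) ^ 2 ≤ B.card →
    ∃ Z Z' : Finset V, Z ⊆ N ∧ Z' ⊆ N ∧ Z.card = R ∧ Z'.card = R ∧ ∀ z ∈ Z, ∀ w ∈ Z', (z, w) ∈ B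

/-- The vertices outside the part `i` that are adjacent to all vertices of `X`, with excesses at
most `δ`. -/
noncomputable def NX {V : Type} [Fintype V] {M : ℕ} (G : SimpleGraph V) (σ : V → Fin M) (δ : ℝ)
    (i : Fin M) (X : Finset V) : Finset V :=
  univ.filter fun z => σ z ≠ i ∧ exc G σ z i ≤ δ ∧ ∀ x ∈ X, G.Adj x z ∧ exc G σ x (σ z) ≤ δ

/-- **PK1** (from EXPOS): if there are many bad pairs, there is a small set `X` inside a part that
sees a dense set of bad pairs. `t = M s`, `n = |V|`; `Dp x (σ x) ≤ s`, `exc ≥ 0` by EXPOS.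

Proof. Call a vertex `x` fine if `4 #{j | ζ s < exc x j} ≤ M`. Consider the triples `(z, w, x)` with
`(z, w) ∈ bad` and `x` a common neighbour of `z`, `w`. Call the triple good if `x` is fine,
`σ z ≠ σ x`, `σ w ≠ σ x`, and `exc z (σ x)`, `exc w (σ x)`, `exc x (σ z)`, `exc x (σ w)` are at most
`ζ s`. The number of triples that are not good is at most `t ^ 2 n (2 / M + 12 τ / ζ)`:
* `σ z = σ x`: at most `∑_x Dp x (σ x) d_x ≤ n s t`; the same for `w`.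
* `ζ s < exc z (σ x)`: at most `t ∑_z ∑_(i : ζ s < exc z i) Dp z i`, where
`Dp z i ≤ s + exc z i ≤ (1 / ζ + 1) exc z i`: at most `(1 + 1 / ζ) τ t ^ 2 n`; the same for `w`.
* `ζ s < exc x (σ z)`: at most `t ∑_x ∑_(j : ζ s < exc x j) Dp x j`, the same bound; also for `w`.
* `x` not fine: then `∑_j exc x j ≥ ζ s M / 4 = ζ t / 4`, so there are at most `4 τ n / ζ` such `x`,
each in at most `t ^ 2` triples. (Sum: `2 n s t + 4 (1 + 1/ζ) τ t ^ 2 n + 4 τ t ^ 2 n / ζ` and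
`4 + 8 / ζ ≤ 12 / ζ`.)
By hypothesis this is at most `(γ ^ 2 / 4) t ^ 2 n`. So at most `γ t n / 2` bad pairs have more than
`γ t / 2` triples that are not good, and at least `γ t n / 2` bad pairs have at least `γ t / 2` good
triples. Let `(z, w)` be such a pair and `a_i` the number of its good triples with `σ x = i`.
`a_i ≤ Dp z i ≤ s + ζ s ≤ 2 s` (if `a_i > 0`) and `∑ a_i ≥ γ t / 2`, so `a_i ≥ γ s / 4 ≥ r` for at
least `γ M / 8` parts `i` (`∑ a_i ≤ 2 s #{i | a_i ≥ γ s / 4} + M γ s / 4`), and for each of them there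
is a set `X` of `r` such vertices `x`. For a part `i` and a set `X` of `r` fine vertices of the
part `i`, the pairs `(z, w) ∈ bad` whose triples with all `x ∈ X` are good have `z, w ∈ NX i X`. So
`∑_(i, X) #{p ∈ bad : p.1, p.2 ∈ NX i X} ≥ (γ t n / 2) (γ M / 8)`. On the other hand
`∑_(i, X) |NX i X| ≤ ∑_z ∑_i #{X : X ⊆ {x | σ x = i, x adjacent to z}, z ∈ NX i X} ≤ n M 4 ^ s` (as
`Dp z i ≤ 2 s` if `exc z i ≤ ζ s`). Since `(γ ^ 2 / (32 * 4 ^ s)) t n M 4 ^ s < γ ^ 2 t n M / 16`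
(there is a bad pair, so `n > 0`), some `(i, X)` has the required inequality. -/
def S_PK1 : Prop :=
  ∀ (γ ζ τ : ℝ) (s r M : ℕ), 0 < γ → γ ≤ 1 → 0 < ζ → ζ ≤ 1 → 0 ≤ τ → 1 ≤ s → 1 ≤ r →
    (r : ℝ) ≤ γ * s / 4 → 1 ≤ M → 2 / (M : ℝ) + 12 * τ / ζ ≤ γ ^ 2 / 4 →
    ∀ (V : Type) (_ : Fintype V) (G : SimpleGraph V) (σ : V → Fin M), Opt G σ →
      (∀ v, dgr G v ≤ M * s) → ∑ x, ∑ j, exc G σ x j ≤ τ * (M * s : ℕ) * Fintype.card V →
      γ * (M * s : ℕ) * Fintype.card V < (bad G (M * s) γ).card →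
      ∃ (i : Fin M) (X : Finset V), (∀ x ∈ X, σ x = i) ∧ X.card = r ∧
        (∀ x ∈ X, 4 * (univ.filter fun j => ζ * s < exc G σ x j).card ≤ M) ∧
        γ ^ 2 / (32 * 4 ^ s) * (M * s : ℕ) * (NX G σ (ζ * s) i X).card <
          ((bad G (M * s) γ).filter fun p =>
            p.1 ∈ NX G σ (ζ * s) i X ∧ p.2 ∈ NX G σ (ζ * s) i X).card

/-- **PK2** (from EXCH, EXPOS, KST): such a set `X` does not exist if `M` is large. `t = M s`.

Proof. Let `l = γ ^ 2 / (32 * 4 ^ s)`, `R = 2 r * (2 s)`, `N₀` from KST for `l` and `R`, and `M` so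
large that `l M s ≥ N₀` and `3 M ≥ 4 (r + 2)`. Let `N = NX i X`, `B` the set of bad pairs in `N`.
`X` has an element `x₀` and `N ⊆ N(x₀)`, so `|N| ≤ t`. As `l t |N| < |B| ≤ |N| ^ 2`, `|N| > l t ≥ N₀`
and `|B| > l |N| ^ 2`. KST gives `Z, Z' ⊆ N` with `R` elements each, all pairs of `Z × Z'` bad
(so `Z`, `Z'` are disjoint). A part contains at most `2 s` vertices of `N`: if `z ∈ N`, `σ z = q`,
then `Dp x₀ q = Dp x₀ (σ x₀) + exc x₀ q ≤ s + ζ s ≤ 2 s`, and all vertices of `N` in the part `q`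
are neighbours of `x₀` in it. So we can choose `Y₁ ⊆ Z` with `r` elements in different parts and
then `Y₃ ⊆ Z'` with `r` elements in different parts, which are also different from the parts of
`Y₁`. Let `Y = Y₁ ∪ Y₃`: `|Y| = 2 r`, `σ` is injective on `Y`, `σ y ≠ i`, there are no edges between
`Y₁` and `Y₃`, so `e2 Y ≤ 2 r (r - 1)`; `e2 X ≤ r (r - 1)`; `eb X Y = 2 r ^ 2`. For every `x ∈ X` at
least `3 M / 4` parts `j` have `exc x j ≤ ζ s`, so we can choose different parts `j x ≠ i` for the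
`x ∈ X` with `exc x (j x) ≤ ζ s` (Hall's theorem `Finset.all_card_le_biUnion_card_iff_exists_injective`,
or greedily). EXCH gives
`4 r ^ 2 ≤ 2 (2 r ζ s) + 2 (r ζ s) + r (r - 1) + 2 r (r - 1) = 6 r ζ s + 3 r ^ 2 - 3 r`, so
`r + 3 ≤ 6 ζ s`, a contradiction with `6 ζ s ≤ r`. -/
def S_PK2 : Prop :=
  ∀ (γ ζ : ℝ) (s r : ℕ), 0 < γ → γ ≤ 1 → 0 < ζ → ζ ≤ 1 → 1 ≤ s → 1 ≤ r → 6 * ζ * s ≤ r →
    ∃ M₀ : ℕ, ∀ M : ℕ, M₀ ≤ M → ∀ (V : Type) (_ : Fintype V) (G : SimpleGraph V) (σ : V → Fin M),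
      Opt G σ → (∀ v, dgr G v ≤ M * s) →
      ∀ (i : Fin M) (X : Finset V), (∀ x ∈ X, σ x = i) → X.card = r →
        (∀ x ∈ X, 4 * (univ.filter fun j => ζ * s < exc G σ x j).card ≤ M) →
        ¬ (γ ^ 2 / (32 * 4 ^ s) * (M * s : ℕ) * (NX G σ (ζ * s) i X).card <
          ((bad G (M * s) γ).filter fun p =>
            p.1 ∈ NX G σ (ζ * s) i X ∧ p.2 ∈ NX G σ (ζ * s) i X).card)

/-- **PSTAT** (from EXSUM, PK1, PK2). Proof. `ζ = γ / 100`, `η = γ ^ 3 / 57600`, `τ = 6 η`,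
`s₀ ≥ 16 / γ`, `r = ⌊γ s / 8⌋` (`≥ γ s / 8 - 1 ≥ 6 ζ s` and `≥ 1`), `M₀ ≥ 16 / γ ^ 2` and at least the
`M₀` of PK2. An optimal partition exists since there are finitely many. -/
def S_PSTAT : Prop :=
  ∀ γ : ℝ, 0 < γ → γ ≤ 1 → ∃ η : ℝ, 0 < η ∧ ∃ s₀ : ℕ, 1 ≤ s₀ ∧ ∀ s : ℕ, s₀ ≤ s → ∃ M₀ : ℕ,
    ∀ M : ℕ, M₀ ≤ M → ∀ (V : Type) (_ : Fintype V) (G : SimpleGraph V),
      (∀ v, dgr G v ≤ M * s) → HS G s (M * s) η →
      ((bad G (M * s) γ).card : ℝ) ≤ γ * (M * s : ℕ) * Fintype.card V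

/-! ### Part 4: counting walks. `n = |V|` everywhere. -/

/-- **WINU** (windows). Proof. Induction on `k`. If `i + m < k`, a walk with `k` steps is a walk
`x'` with `k - 1` steps together with a neighbour of its last vertex, so the sum is
`∑_(x' ∈ Wk (k-1)) f (window) * d(last x') ≤ t ∑_(x' ∈ Wk (k-1)) f (window)`. If `i + m = k` and
`0 < i` remove the first vertex in the same way (the window moves to `i - 1`). If `i = 0`, `m = k`
there is nothing to prove. (Use `Fin.snocEquiv`, `Fin.consEquiv` or similar.) -/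
def S_WINU : Prop :=
  ∀ (V : Type) (_ : Fintype V) (G : SimpleGraph V) (t : ℕ), (∀ v, dgr G v ≤ t) →
    ∀ (k i m : ℕ), i + m ≤ k → ∀ f : (Fin (m + 1) → V) → ℝ, (∀ y, 0 ≤ f y) →
      ∑ x ∈ Wk G k, f (fun j => ev x (i + (j : ℕ))) ≤ (t : ℝ) ^ (k - m) * ∑ y ∈ Wk G m, f y

/-- **WINT** (windows, two-sided). Proof. The same induction: removing the last vertex,
`|∑_(x ∈ Wk k) f - t ∑_(x' ∈ Wk (k-1)) f| ≤ B ∑_(x' ∈ Wk (k-1)) (t - d(last x'))
≤ B t ^ (k - 1) ∑_v (t - d_v) ≤ B γ n t ^ k`, by WINU with `m = 0`, and the same for the first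
vertex. -/
def S_WINT : Prop :=
  ∀ (V : Type) (_ : Fintype V) (G : SimpleGraph V) (t : ℕ) (γ : ℝ), (∀ v, dgr G v ≤ t) →
    ∑ v, ((t : ℝ) - dgr G v) ≤ γ * t * Fintype.card V →
    ∀ (k i m : ℕ), i + m ≤ k → ∀ (f : (Fin (m + 1) → V) → ℝ) (B : ℝ), (∀ y, |f y| ≤ B) →
      |∑ x ∈ Wk G k, f (fun j => ev x (i + (j : ℕ))) - (t : ℝ) ^ (k - m) * ∑ y ∈ Wk G m, f y| ≤
        ((k : ℝ) - m) * B * γ * Fintype.card V * (t : ℝ) ^ k

/-- **PAIR**. Proof. Induction on `L`. `L = 1`: the sum is over the adjacent pairs. Step: removing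
the last vertex, the sum for `L + 1` is `∑_(y ∈ Wk L) F' (y_0) (y_L)` with
`F' a b = ∑_(w ∈ nbs b) F a w`, and `∑_(a,b) F' a b = ∑_(a,w) d(w) F a w ≤ t ∑ F`. -/
def S_PAIR : Prop :=
  ∀ (V : Type) (_ : Fintype V) (G : SimpleGraph V) (t : ℕ), (∀ v, dgr G v ≤ t) →
    ∀ (L : ℕ), 1 ≤ L → ∀ F : V → V → ℝ, (∀ a b, 0 ≤ F a b) →
      ∑ y ∈ Wk G L, F (ev y 0) (ev y L) ≤ (t : ℝ) ^ (L - 1) * ∑ a, ∑ b, F a b

/-- **BONE**. Proof. For `(a, b) ∈ bad`: `cod ≤ t`, together at most `t ^ 2 |bad| ≤ γ n t ^ 3`. For the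
other nonadjacent pairs `cod ^ 2 ≤ γ t cod` and `∑_(a,b) cod a b = ∑_w (d_w) ^ 2 ≤ n t ^ 2`. -/
def S_BONE : Prop :=
  ∀ (V : Type) (_ : Fintype V) (G : SimpleGraph V) (t : ℕ) (γ : ℝ), Reg G t γ →
    ∑ a, ∑ b, (if a ≠ b ∧ ¬ G.Adj a b then (cod G a b : ℝ) ^ 2 else 0) ≤
      2 * γ * Fintype.card V * (t : ℝ) ^ 3

/-- **BTWO** (from PAIR, WINU). Proof. Write the summand as the part with `(y_0, y_L) ∈ bad`, which
is at most `t [(y_0, y_L) ∈ bad]`, so by PAIR the sum is at most `t ^ (L-1) t |bad| ≤ γ n t ^ (L+1)`,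
plus the rest, which is at most `γ t` for each of the at most `n t ^ L` walks (WINU with `m = 0`,
`f = 1`). -/
def S_BTWO : Prop :=
  ∀ (V : Type) (_ : Fintype V) (G : SimpleGraph V) (t : ℕ) (γ : ℝ), Reg G t γ → ∀ L : ℕ, 1 ≤ L →
    ∑ y ∈ Wk G L, (if ev y 0 ≠ ev y L ∧ ¬ G.Adj (ev y 0) (ev y L) then
      (cod G (ev y 0) (ev y L) : ℝ) else 0) ≤ 2 * γ * Fintype.card V * (t : ℝ) ^ (L + 1)

/-- **GOODEV**. Proof of `run`. First, if `x_i`, `x_j` are adjacent, `i < j ≤ k`, then `Tr l` for all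
`i < l < j`: induction on `j - i`. `j = i + 1`: nothing. `j = i + 2`: `Tr (i + 1)` says that `x_i`,
`x_(i+2)` are adjacent. `j ≥ i + 3`: `x_i`, `x_(j-1)` are adjacent, otherwise (a) for `i, j - 1` says
that `x_i`, `x_j` are not adjacent; `x_(i+1)`, `x_j` are adjacent, otherwise (b) for `i + 1, j` says
that `x_i`, `x_j` are not adjacent. By induction `Tr l` for `i < l < j - 1` and for `i + 1 < l < j`.
Second, if `Tr l` for all `i < l < j` then `x_i`, `x_j` are adjacent: induction on `j - i`.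
`j = i + 1`: walk. `j = i + 2`: `Tr (i + 1)`. `j ≥ i + 3`: `x_i` is adjacent to `x_(j-1)` and
`x_(j-2)` by induction, `x_(j-2)`, `x_j` are adjacent by `Tr (j - 1)`; use (c). -/
def S_GOODEV : Prop :=
  ∀ (V : Type) (_ : Fintype V) (G : SimpleGraph V) (k : ℕ) (x : Fin (k + 1) → V), x ∈ Wk G k →
    Function.Injective x →
    (∀ i j, i + 2 ≤ j → j + 1 ≤ k → ¬ G.Adj (ev x i) (ev x j) →
      ¬ G.Adj (ev x i) (ev x (j + 1))) →
    (∀ i j, 1 ≤ i → i + 2 ≤ j → j ≤ k → ¬ G.Adj (ev x i) (ev x j) →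
      ¬ G.Adj (ev x (i - 1)) (ev x j)) →
    (∀ i j, i + 3 ≤ j → j ≤ k → G.Adj (ev x i) (ev x (j - 1)) → G.Adj (ev x i) (ev x (j - 2)) →
      G.Adj (ev x (j - 2)) (ev x j) → G.Adj (ev x i) (ev x j)) →
    Good G x

/-- **BADCNT** (from GOODEV, WINU, PAIR, BONE, BTWO): few walks are not good. Proof. If `x ∈ Wk k` is
not good, by GOODEV one of the following happens for some `i < j ≤ k` (at most `(k+1)^2 / 2` pairs);
`na a b` means `a ≠ b` and not adjacent; `L = j - i`: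
(0) `x_i = x_j`. By PAIR (`F a b = [a = b]`) and WINU (window `i..j`) at most
`t ^ (k-L) t ^ (L-1) n = n t ^ (k-1) ≤ γ n t ^ k` walks.
(a) `L ≥ 2`, `j < k`, `na x_i x_j`, `x_i` adjacent to `x_(j+1)`. By WINU (window `i..j+1`) and
removing the last vertex, at most
`t ^ (k-L-1) ∑_(y ∈ Wk L) [na y_0 y_L] cod y_0 y_L ≤ 2 γ n t ^ k`, by BTWO.
(b) `L ≥ 2`, `1 ≤ i`, `na x_i x_j`, `x_(i-1)` adjacent to `x_j`: the same, removing the first vertex.
(c) `L ≥ 3`, `na x_i x_j`, `x_i` adjacent to `x_(j-1)`, `x_(j-2)`, and `x_(j-2)` adjacent to `x_j`. The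
window `y ∈ Wk L` has `y_(L-2), y_(L-1)` common neighbours of `y_0`, `y_L`. Removing the last two
vertices, the number of windows is at most `∑_(y ∈ Wk (L-2)) F (y_0) (y_(L-2))` with
`F a c = #{(u, w) : na a w, c and u common neighbours of a and w}`, so by PAIR at most
`t ^ (L-3) ∑_(na a w) cod a w ^ 2 ≤ 2 γ n t ^ L` (BONE). With WINU at most `2 γ n t ^ k` walks.
Together at most `((k+1)^2 / 2) 7 γ n t ^ k`. -/
def S_BADCNT : Prop :=
  ∀ (V : Type) (_ : Fintype V) (G : SimpleGraph V) (t : ℕ) (γ : ℝ), Reg G t γ → ∀ k : ℕ,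
    (((Wk G k).filter fun x => ¬ Good G x).card : ℝ) ≤
      4 * ((k : ℝ) + 1) ^ 2 * γ * Fintype.card V * (t : ℝ) ^ k

/-- **ERRSUM** (from WINU, PAIR, BONE, BTWO). Proof. `na a b` means `a ≠ b` and not adjacent. For
`p < i ≤ k`, `L = i - p`, window `p..i` (WINU gives a factor `t ^ (k-L)`):
* `∑_(y ∈ Wk L) crs (y_L) (y_0) = ∑_(y' ∈ Wk (L+1)) [na y'_0 y'_(L+1)] cod y'_0 y'_(L+1)
≤ 2 γ n t ^ (L+2)` (BTWO).
* `∑_(y ∈ Wk L) nad (y_L) (y_0) ≤ t ^ (L-1) ∑_(a,b) nad b a = t ^ (L-1) ∑_(na u w) cod u w ^ 2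
≤ 2 γ n t ^ (L+2)` (PAIR, BONE).
* `L ≥ 2`: `∑_(y ∈ Wk L) er3 (y_0) (y_(L-1)) (y_L) ≤ ∑_(y ∈ Wk (L-1)) F (y_0) (y_(L-1))` with
`F a q = #{(r, u) : na a u, q and r common neighbours of a and u}`, so by PAIR it is at most
`t ^ (L-2) ∑_(na a u) cod a u ^ 2 ≤ 2 γ n t ^ (L+1)` (BONE). With the factor `2 t`: `4 γ n t ^ (L+2)`.
So each pair `p < i` contributes at most `10 γ n t ^ (k+2)`, and there are at most `(k+1)^2 / 2`
pairs. The first term of `Err` contributes `7 (k+1)^2 t |Wk k| ≤ 7 (k+1)^2 n t ^ (k+1)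
≤ 7 (k+1)^2 γ n t ^ (k+2)`. -/
def S_ERRSUM : Prop :=
  ∀ (V : Type) (_ : Fintype V) (G : SimpleGraph V) (t : ℕ) (γ : ℝ), Reg G t γ → ∀ k : ℕ,
    ∑ x ∈ Wk G k, Err G t x ≤
      12 * ((k : ℝ) + 1) ^ 2 * γ * Fintype.card V * (t : ℝ) ^ (k + 2)

/-- **DFCSUM** (from WINU). Proof. `cnb (TT x)` is contained in the union of the closed
neighbourhoods of the `x_i`, `i ≤ k`, and all terms `t - d_w` are `≥ 0`, so
`Dfc (TT x) ≤ 2 ∑_(i ≤ k) ((t - d(x_i)) + ∑_(w ∈ nbs (x_i)) (t - d_w))`. By WINU (`m = 0`) the sum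
over the walks of the term of index `i` is at most
`t ^ k ∑_v ((t - d_v) + ∑_(w ∈ nbs v) (t - d_w)) ≤ t ^ k (1 + t) ∑_w (t - d_w)
≤ 2 t ^ (k+1) γ t n`. -/
def S_DFCSUM : Prop :=
  ∀ (V : Type) (_ : Fintype V) (G : SimpleGraph V) (t : ℕ) (γ : ℝ), Reg G t γ → ∀ k : ℕ,
    ∑ x ∈ Wk G k, Dfc G t (TT G x) ≤
      4 * ((k : ℝ) + 1) * γ * Fintype.card V * (t : ℝ) ^ (k + 2)

/-! ### Part 5: the cost of a good walk -/

/-- **COST**. Proof. Let `K = Ks G x`, `N_i = nbs G (x_i)`, `D_i = N_i \ ⋃_(p ∈ K, p < i) N_p` for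
`i ∈ K` and `N = ⋃_(i ∈ K) N_i`, the disjoint union of the `D_i`.

(1) `cnb (TT x) = TT x ∪ N` and all degrees are at most `t`, so
`e2 (cnb (TT x)) ≤ e2 N + 2 (k+1) t`.

(2) `e2 N ≤ ∑_(i ∈ K) e2 D_i + 2 ∑_(p < i in K) #{(u, w) : u ∈ N_i \ N_p, w ∈ N_p adjacent}` (look at
the pairs `(u, w)` with `u ∈ D_i`, `w ∈ D_p`, `p < i`, and the symmetric ones). For fixed `u` the
number of `w` is `cod (x_p) u`. The vertices `u ≠ x_p` give `crs (x_i) (x_p)`, the vertex `u = x_p`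
gives at most `t`. So `e2 N ≤ ∑ e2 D_i + ∑_(p<i) (2 crs (x_i) (x_p) + 2 t)`.

(3) Let `i ∈ K`, `i ≥ 1`, and let `p` be the largest element of `K` with `p < i` (`0 ∈ K`). The indices
`l` with `p < l < i` are not kept, so `Tr l` holds for them. Hence, by `Good.run` (or by the walk, if
`p = i - 1`), `x_p` and `x_i` are adjacent, and if `p + 2 ≤ i` then also `x_p` and `x_(i-1)` are
adjacent. Since `D_i ⊆ N_i \ N_p`, `e2 D_i ≤ e2 N_i - e2 (N_i ∩ N_p)`; `e2 N_i = rho2 (x_i)`;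
`e2 (N_i ∩ N_p) = c ^ 2 - c - nad (x_i) (x_p)` with `c = cod (x_i) (x_p) ≤ t`.
If `p = i - 1` then `c = cod (x_(i-1)) (x_i)`. If `p + 2 ≤ i` then
`c ≥ cod (x_(i-1)) (x_i) - e - 1` with `e = er3 (x_p) (x_(i-1)) (x_i)` (the common neighbours of
`x_(i-1)`, `x_i` that are not adjacent to `x_p`: `x_p` itself and those counted by `er3`), so
`c ^ 2 ≥ cod (x_(i-1)) (x_i) ^ 2 - 2 t (e + 1)`.
So in all cases `e2 D_i ≤ rho2 (x_i) - cod (x_(i-1)) (x_i) ^ 2 + t + nad (x_i) (x_p) +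
[p + 2 ≤ i] 2 t e + 2 t`. For `i = 0`: `e2 D_0 = rho2 (x_0)`.

(4) Sum: the deterministic terms are at most `2 (k+1) t + (k+1)^2 t + 3 (k+1) t ≤ 7 (k+1)^2 t`. -/
def S_COST : Prop :=
  ∀ (V : Type) (_ : Fintype V) (G : SimpleGraph V) (t k : ℕ) (x : Fin (k + 1) → V),
    (∀ v, dgr G v ≤ t) → x ∈ Wk G k → Good G x →
    (e2 G (cnb G (TT G x)) : ℝ) ≤
      ∑ i ∈ Ks G x, ((rho2 G (ev x i) : ℝ) -
        if 1 ≤ i then (cod G (ev x (i - 1)) (ev x i) : ℝ) ^ 2 else 0) + Err G t x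

/-! ### Part 6: the gain of a random walk -/

/-- **MID** (from WINT, BONE): the gain of an index `3 ≤ i < k`. Proof. Put
`g z v = (1/4 + κ) t ^ 2 - rho2 v + cod z v ^ 2`, so `|g| ≤ 2 t ^ 2` (`rho2 v ≤ t ^ 2`, `cod ≤ t`). The
condition `Kp x i` fails exactly if `Tr (i-2)`, `Tr (i-1)`, `Tr i`. In the window
`y = (x_(i-3), ..., x_(i+1)) ∈ Wk 4` this says that `y_0 y_2`, `y_1 y_3`, `y_2 y_4` are edges.
(1) WINT for the window `m = 4` and the function `[kept] g (y_2) (y_3)`: the left side differs from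
`t ^ (k-4) ∑_(y ∈ Wk 4) [kept] g (y_2) (y_3)` by at most `(k-4) 2 t ^ 2 γ n t ^ k`.
(2) WINT for `k = 4`, `m = 1`, `i = 2`: `∑_(y ∈ Wk 4) g (y_2) (y_3)` differs from
`t ^ 3 ∑_(z, v adjacent) g z v` by at most `6 γ n t ^ 6`.
(3) The sum over the `y ∈ Wk 4` that are not kept is (`z = y_2`, `v = y_3`; `y_4` is a common
neighbour of `z`, `v`; `w = y_1` is a common neighbour of `z`, `v`; `y_0` is a common neighbour of
`w`, `z`) `∑_(z, v adjacent) g z v cod z v ∑_(w ∈ cmn z v) cod w z`, and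
`|cod w z - cod v z| ≤ #{u ∈ nbs z : u ~ w, u ≁ v} + #{u ∈ nbs z : u ~ v, u ≁ w}`. For adjacent
`v, w` the vertex `u = v` is counted once in the first number and `u = w` once in the second. So the
difference of the sum and of `∑_(z, v adjacent) g z v (cod z v) ^ 3` is at most
`2 t ^ 2 * t * (2 ∑_(na u v) cod u v ^ 2 + 2 n t ^ 2) ≤ 2 t ^ 3 (4 γ n t ^ 3 + 2 γ n t ^ 3)
= 12 γ n t ^ 6` (`na`: different and not adjacent; `z` and `w` are common neighbours of `u`, `v`;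
BONE; `1 ≤ γ t`).
Total: `(2 (k - 4) + 6 + 12) γ n t ^ (k+2) ≤ 20 (k + 1) γ n t ^ (k+2)`, and
`t ^ (k-4) (t ^ 3 ∑ g - ∑ g cod ^ 3) = t ^ (k-1) ∑ (1 - (cod / t) ^ 3) g`. -/
def S_MID : Prop :=
  ∀ (V : Type) (_ : Fintype V) (G : SimpleGraph V) (t : ℕ) (γ κ : ℝ), 0 ≤ κ → κ ≤ 1 / 4 →
    Reg G t γ → ∀ k i : ℕ, 3 ≤ i → i + 1 ≤ k →
    (t : ℝ) ^ (k - 1) * ∑ v, ∑ z ∈ nbs G v, (1 - ((cod G z v : ℝ) / t) ^ 3) *
        ((1 / 4 + κ) * (t : ℝ) ^ 2 - rho2 G v + (cod G z v : ℝ) ^ 2) -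
      20 * ((k : ℝ) + 1) * γ * Fintype.card V * (t : ℝ) ^ (k + 2) ≤
      ∑ x ∈ (Wk G k).filter (fun x => Kp G x i), gain G t κ x i

/-- **STAR**, the key inequality. (Proved by helper60.) -/
def S_STAR : Prop :=
  ∀ (m : ℕ) (θ : Fin m → ℝ), (∀ i, 0 ≤ θ i) → ∑ i, θ i ≤ 1 →
    0 ≤ (1 / 4 - ∑ i, θ i ^ 2) * (1 - ∑ i, θ i ^ 4) + ∑ i, θ i ^ 3 - ∑ i, θ i ^ 6

/-- **EQUI** (from STAR). Proof. Let `c a = #{b | e a b}` and `C_1, ..., C_m` the classes,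
`θ_i = |C_i| / L`. Then `∑ θ_i = 1` and `∑_a (c a / L) ^ j / L = ∑_i θ_i ^ (j+1)`. Expanding,
`∑_ι Psi e ι / L ^ 6 = (1/4 - S 1) (1 - S 3) + S 2 - S 5` with `S j = ∑_a (c a / L) ^ j / L` (sum over
the values of `ι` at the indices that occur, factor `L` for the other ones; the indices `4, 5` in
`Ind (ι 4) (ι 5)` are independent of `0, 1, 2, 3`). -/
def S_EQUI : Prop :=
  ∀ (L : ℕ) (e : Fin L → Fin L → Prop), 1 ≤ L → Equivalence e →
    0 ≤ ∑ ι : Fin 6 → Fin L, Psi e ι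

/-- **STARF** (from EQUI). `N = |S|`. Proof. For `f : Fin L → S` let `a ≈_f b` if `a = b` or
`r (f a) (f b)`. Note `-1 ≤ Psi ≤ 1` always. Let `W = ∑_f ∑_(ι : Fin 6 → Fin L) Psi (≈_f) ι`.

Lower bound: if `≈_f` is transitive the inner sum is `≥ 0` by EQUI. If it is not, there are
`a, b, c`, with `r (f a) (f b)`, `r (f b) (f c)`, `a ≠ c`, `¬ r (f a) (f c)` (`a`, `b`, `c` are
different), and either `f a ≠ f c` or `f a = f c`. For given `a, b, c` the number of such `f` is at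
most `N ^ (L-3) (P3 r + N ^ 2)`. So `W ≥ - L ^ 6 * L ^ 3 N ^ (L-3) (P3 r + N ^ 2)`
`= - L ^ 9 N ^ L (P3 r / N ^ 3 + 1 / N)`.

Upper bound: if `ι` is injective then `Psi (≈_f) ι = Psi r (f ∘ ι)` and `∑_f Psi r (f ∘ ι) =
N ^ (L-6) ∑_(g : Fin 6 → S) Psi r g = N ^ L A`, `A` the average of `Psi r`. At most `15 L ^ 5` of
the `ι` are not injective. Let `I` be the number of the injective `ι`, `L ^ 6 - 15 L ^ 5 ≤ I ≤ L ^ 6`.
So `W ≤ I N ^ L A + 15 L ^ 5 N ^ L` and, as `A ≥ -1`... `I A = L ^ 6 A - (L ^ 6 - I) A ≤ L ^ 6 A +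
15 L ^ 5`. Hence `W ≤ N ^ L (L ^ 6 A + 30 L ^ 5)`.

Together `A ≥ - L ^ 3 (P3 r / N ^ 3 + 1 / N) - 30 / L`. -/
def S_STARF : Prop :=
  ∀ (S : Type) (_ : Fintype S) (_ : Nonempty S) (r : S → S → Prop), (∀ a b, r a b → r b a) →
    (∀ a, ¬ r a a) → ∀ L : ℕ, 1 ≤ L →
    -((Fintype.card S : ℝ) ^ 6 * ((L : ℝ) ^ 3 * ((P3 r : ℝ) / (Fintype.card S : ℝ) ^ 3 +
      1 / Fintype.card S) + 30 / L)) ≤ ∑ g : Fin 6 → S, Psi r g

/-- **STARV** (from STARF). Proof. Apply STARF to `S = ↥(nbs G v) ⊕ Fin (t - d_v)`, `|S| = t`, with `r`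
the adjacency on the first part and nothing else. Then the number of `r`-neighbours of `y ∈ nbs v`
is `cod v y = cod y v`, the other elements have none, the sum of these numbers is `rho2 v`, and
`∑_g Psi r g = t ^ 6 ((1/4 - ρ) (1 - s_4) + s_3 - s_6)` with `θ_y = cod y v / t`, `ρ = rho2 v / t ^ 2`,
`s_(j+1) = ∑_y θ_y ^ j / t`. So
`∑_(z ∈ nbs v) (1 - θ_z ^ 3) (t ^ 2 / 4 - rho2 v + cod z v ^ 2) + (t - d_v) (t ^ 2 / 4 - rho2 v)
= t ^ 3 ((1/4 - ρ) (1 - s_4) + s_3 - s_6)`, and `(t - d_v) (t ^ 2 / 4 - rho2 v) ≤ (t - d_v) t ^ 2 / 4`.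
`P3 r` is the number in the statement. -/
def S_STARV : Prop :=
  ∀ (V : Type) (_ : Fintype V) (G : SimpleGraph V) (t : ℕ) (v : V), 1 ≤ t → dgr G v ≤ t →
    ∀ L : ℕ, 1 ≤ L →
    -((L : ℝ) ^ 3 * (((univ.filter fun q : V × V × V => G.Adj v q.1 ∧ G.Adj v q.2.1 ∧
        G.Adj v q.2.2 ∧ G.Adj q.1 q.2.1 ∧ G.Adj q.2.1 q.2.2 ∧ q.1 ≠ q.2.2 ∧
        ¬ G.Adj q.1 q.2.2).card : ℝ) + (t : ℝ) ^ 2) + 30 / L * (t : ℝ) ^ 3 +
        ((t : ℝ) - dgr G v) * (t : ℝ) ^ 2 / 4) ≤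
      ∑ z ∈ nbs G v, (1 - ((cod G z v : ℝ) / t) ^ 3) *
        (1 / 4 * (t : ℝ) ^ 2 - rho2 G v + (cod G z v : ℝ) ^ 2)

/-- **STARG** (from STARV, BONE). Proof. Sum STARV over `v`. The sum over `v` of the numbers of
induced paths `(a, b, c)` in `nbs v` is at most `∑_(a ≠ c not adjacent) cod a c ^ 2 ≤ 2 γ n t ^ 3`
(`v` and `b` are common neighbours of `a`, `c`), `n t ^ 2 ≤ γ n t ^ 3`, and
`∑ (t - d_v) ≤ γ t n`; `3 L ^ 3 γ + γ / 4 ≤ 4 L ^ 3 γ`. -/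
def S_STARG : Prop :=
  ∀ (V : Type) (_ : Fintype V) (G : SimpleGraph V) (t : ℕ) (γ : ℝ), Reg G t γ → ∀ L : ℕ, 1 ≤ L →
    -((4 * (L : ℝ) ^ 3 * γ + 30 / L) * Fintype.card V * (t : ℝ) ^ 3) ≤
      ∑ v, ∑ z ∈ nbs G v, (1 - ((cod G z v : ℝ) / t) ^ 3) *
        (1 / 4 * (t : ℝ) ^ 2 - rho2 G v + (cod G z v : ℝ) ^ 2)

/-- **MAIN** (from WINT, MID, STARG): the average total gain of a walk is positive. Proof. Let
`m_j = ∑_(z, v adjacent) (cod z v / t) ^ j / (n t)`, so `m_0 ≤ 1`, and note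
`∑_v rho2 v = n t ^ 2 m_1`, `∑_(z, v adjacent) rho2 v ≤ n t ^ 3 m_1`. The indices `0, 1, 2, k` are always
kept. By WINT (`m = 0`): the index `0` contributes at least `(1/4 + κ - m_1 - k γ) n t ^ (k+2)`. By WINT
(`m = 1`): each of the indices `1, 2, k` contributes at least
`((1/4 + κ) m_0 - m_1 + m_2 - 2 k γ) n t ^ (k+2)`. By MID and STARG: each `3 ≤ i < k` contributes at
least `(κ (m_0 - m_3) - 4 L ^ 3 γ - 30 / L - 20 (k + 1) γ) n t ^ (k+2)`. Since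
`1/4 + 3/4 m_0 ≥ m_0` and `m_0 - 4 m_1 + 3 m_2 + (m_0 - m_3) ≥ 0` (`(1 - θ) (1 - 3 θ) + (1 - θ ^ 3) =
(1 - θ) (2 - 2 θ + θ ^ 2) ≥ 0`) and `κ (k - 3) ≥ 1`, the total is at least
`κ + 3 κ m_0 - (k γ + 6 k γ + (k - 3) (4 L ^ 3 γ + 30 / L + 20 (k + 1) γ))`, and `m_0 ≥ 1 - γ`. Choose
first `L`, then `γ₀`. -/
def S_MAIN : Prop :=
  ∀ (κ : ℝ) (k : ℕ), 0 < κ → κ ≤ 1 / 4 → 4 ≤ k → 1 ≤ κ * ((k : ℝ) - 3) → ∃ γ₀ : ℝ, 0 < γ₀ ∧
    ∀ (V : Type) (_ : Fintype V) (G : SimpleGraph V) (t : ℕ) (γ : ℝ), 0 < γ → γ ≤ γ₀ →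
      Reg G t γ →
      2 * κ * Fintype.card V * (t : ℝ) ^ (k + 2) ≤
        ∑ x ∈ Wk G k, ∑ i ∈ Ks G x, gain G t κ x i

/-- **CORE** (from RUNPL, COST, BADCNT, ERRSUM, DFCSUM, MAIN). Proof. We may assume `κ ≤ 1/4`. Choose `k`
with `κ (k - 3) ≥ 1`. Suppose that `e2 (cnb T) + Dfc T > (1/4 + κ) t ^ 2 |T|` for all nonempty
planar `T`. For good walks, with `T = TT x`, `|T| = |Ks x|`, COST gives
`∑_(i ∈ Ks x) gain x i ≤ Err x + Dfc (TT x)`. For the other walks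
`∑_(i ∈ Ks x) gain x i ≤ 2 (k+1) t ^ 2`. So
`2 κ n t ^ (k+2) ≤ (12 (k+1)^2 + 4 (k+1) + 8 (k+1)^3) γ n t ^ (k+2)`, a contradiction if
`24 (k+1)^3 γ < 2 κ`. -/
def S_CORE : Prop :=
  ∀ κ : ℝ, 0 < κ → ∃ γ : ℝ, 0 < γ ∧ γ ≤ 1 ∧ ∀ (V : Type) (_ : Fintype V) (_ : Nonempty V)
    (G : SimpleGraph V) (t : ℕ), Reg G t γ →
    ∃ T : Finset V, T.Nonempty ∧ PlS G (T : Set V) ∧
      (e2 G (cnb G T) : ℝ) + Dfc G t T ≤ (1 / 4 + κ) * (t : ℝ) ^ 2 * T.card

/-! ### Part 7: the end -/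

/-- **TOP** (from BASE, MONO, FIND, NREG, PSTAT, CORE). Proof. Suppose that `¬ Cov t C` for all
`t ≥ 1`, `C < 4`. Let `c` be the supremum of the numbers `c' ≥ 0` with `Cov t c'` for some `t ≥ 1`;
`1/2 ≤ c ≤ C`. Choose `κ`, `η` with `(1 + η) c (1/4 + κ) ≤ 1`; `γ` from CORE; `η` also at most
`1/3`, `γ ^ 2 / 16` and the `η` of PSTAT; `s ≥ s₀` with `Cov s ((1 - η) c)` (MONO); `M` large,
`t = M s`. FIND for `(1 + η) c` gives `G`; `dgr ≤ t` (remove a vertex); `HS G s t η` holds because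
`(1 + η) / (1 - η) ≤ 1 + 3 η`; so `Reg G t γ`, by NREG and PSTAT, and CORE contradicts FIND. -/
def S_TOP : Prop := ∀ C : ℝ, 0 ≤ C → C < 4 → ∃ t : ℕ, 1 ≤ t ∧ Cov t C

end Pool.Agent.Helper60.PlzA
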