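import Pool.Agent.Helper60.PlzA.Goals

/-!
# The end of the proof (MP_8e7d5e_co, project PLA): TOP
-/

set_option autoImplicit false

namespace Pool.Agent.Helper60.PlzA

open Finset Pool.Agent.Helper93.Plz

open scoped Classical

theorem eb_eq_sum {V : Type} [Fintype V] (G : SimpleGraph V) (X Y : Finset V) :
    eb G X Y = ∑ x ∈ X, ∑ y ∈ Y, if G.Adj x y then 1 else 0 := by
  rw [eb, Finset.card_filter, Finset.sum_product]

theorem UU_empty {V : Type} [Fintype V] (G : SimpleGraph V) (t : ℕ) : UU G t ∅ = 0 := by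
  simp [UU, e2, eb]

theorem dgr_eq_sum {V : Type} [Fintype V] (G : SimpleGraph V) (v : V) :
    dgr G v = ∑ y, if G.Adj v y then 1 else 0 := by
  rw [dgr, nbs, Finset.card_filter]

theorem e2_erase {V : Type} [Fintype V] (G : SimpleGraph V) (v : V) :
    e2 G univ = e2 G (univ.erase v) + 2 * dgr G v := by
  have h1 : ∀ f : V → ℕ, ∑ x, f x = f v + ∑ x ∈ univ.erase v, f x := fun f =>
    (Finset.add_sum_erase univ f (Finset.mem_univ v)).symm
  have h2 : ∑ x ∈ univ.erase v, (if G.Adj x v then 1 else 0) = dgr G v := by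
    rw [dgr_eq_sum, h1]
    simp only [SimpleGraph.irrefl, if_false, zero_add]
    exact Finset.sum_congr rfl fun x _ => by rw [G.adj_comm]
  have h3 : dgr G v = ∑ x ∈ univ.erase v, (if G.Adj v x then 1 else 0) := by
    rw [dgr_eq_sum, h1]
    simp
  have e1 : e2 G univ = dgr G v + ∑ x ∈ univ.erase v, dgr G x := by
    rw [e2, eb_eq_sum, h1, ← dgr_eq_sum]
    congr 1
    exact Finset.sum_congr rfl fun x _ => (dgr_eq_sum G x).symm
  have e3 : ∀ x, dgr G x = (if G.Adj x v then 1 else 0) +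
      ∑ y ∈ univ.erase v, (if G.Adj x y then 1 else 0) := fun x => by
    rw [dgr_eq_sum, h1]
  rw [e1, e2, eb_eq_sum, Finset.sum_congr rfl (fun x _ => e3 x), Finset.sum_add_distrib, h2]
  ring

theorem deg_le {V : Type} [Fintype V] (G : SimpleGraph V) (t : ℕ)
    (h : ∀ Z : Finset V, UU G t Z ≤ UU G t univ) (v : V) : dgr G v ≤ t := by
  have h1 := h (univ.erase v)
  rw [UU, UU, e2_erase G v] at h1
  have h2 : ((univ.erase v : Finset V).card : ℝ) + 1 = (univ : Finset V).card := by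
    exact_mod_cast Finset.card_erase_add_one (Finset.mem_univ v)
  push_cast at h1
  rw [← h2] at h1
  have : (dgr G v : ℝ) ≤ t := by nlinarith
  exact_mod_cast this

theorem cov_anti {t : ℕ} {c c' : ℝ} (h0 : 0 ≤ c) (hc : c ≤ c') (h : Cov t c') : Cov t c := by
  intro V _ G S
  obtain ⟨P, hPS, hP, h1⟩ := h V inferInstance G S
  refine ⟨P, hPS, hP, fun Z hZ => ?_⟩
  have h2 := h1 Z hZ
  have h3 : (0 : ℝ) ≤ (t : ℝ) ^ 2 * P.card := by positivity
  by_cases hU : 0 ≤ UU G t Z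
  · exact (mul_le_mul_of_nonneg_right hc hU).trans h2
  · push Not at hU
    nlinarith

theorem top (hB : S_BASE) (hM : S_MONO) (hF : S_FIND) (hN : S_NREG) (hP : S_PSTAT)
    (hC : S_CORE) : S_TOP := by
  intro C hC0 hC4
  by_contra hcon
  push Not at hcon
  set A : Set ℝ := {c | 0 ≤ c ∧ ∃ t : ℕ, 1 ≤ t ∧ Cov t c} with hA
  have hub : ∀ c ∈ A, c ≤ C := by
    rintro c ⟨hc0, t, ht, hcov⟩
    by_contra hlt
    push Not at hlt
    exact hcon t ht (cov_anti hC0 hlt.le hcov)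
  have hbdd : BddAbove A := ⟨C, hub⟩
  have hhalf : (1 / 2 : ℝ) ∈ A := ⟨by norm_num, 1, le_rfl, hB⟩
  set c0 := sSup A with hc0
  have hc0half : 1 / 2 ≤ c0 := le_csSup hbdd hhalf
  have hc0C : c0 ≤ C := csSup_le ⟨_, hhalf⟩ hub
  have hc0pos : 0 < c0 := by linarith
  set δ : ℝ := (4 - C) / 4 with hδ
  have hδ0 : 0 < δ := by rw [hδ]; linarith
  have hδ1 : δ ≤ 1 := by rw [hδ]; linarith
  obtain ⟨γ, hγ0, hγ1, hcore⟩ := hC (δ / 16) (by positivity)
  obtain ⟨η₁, hη1, s₀, hs0, hps⟩ := hP γ hγ0 hγ1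
  set η : ℝ := min (min η₁ (1 / 3)) (min (γ ^ 2 / 16) (δ / 2)) with hη
  have hη0 : 0 < η := by
    rw [hη]
    refine lt_min (lt_min hη1 (by norm_num)) (lt_min (by positivity) (by positivity))
  have hηa : η ≤ η₁ := (min_le_left _ _).trans (min_le_left _ _)
  have hηb : η ≤ 1 / 3 := (min_le_left _ _).trans (min_le_right _ _)
  have hηc : η ≤ γ ^ 2 / 16 := (min_le_right _ _).trans (min_le_left _ _)
  have hηd : η ≤ δ / 2 := (min_le_right _ _).trans (min_le_right _ _)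
  -- a good `s`
  have hlt : (1 - η) * c0 < sSup A := by rw [← hc0]; nlinarith
  obtain ⟨c', ⟨hc'0, t', ht', hcov'⟩, hc'⟩ := exists_lt_of_lt_csSup ⟨_, hhalf⟩ hlt
  have hnn : 0 ≤ (1 - η) * c0 := mul_nonneg (by linarith) hc0pos.le
  set s := max s₀ t' with hs
  have hs1 : 1 ≤ s := hs0.trans (le_max_left _ _)
  have hcs : Cov s ((1 - η) * c0) :=
    hM t' s _ ht' (le_max_right _ _) hnn (cov_anti hnn hc'.le hcov')
  obtain ⟨M₀, hM0⟩ := hps s (le_max_left _ _)
  -- a good `M`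
  obtain ⟨N1, hN1⟩ := exists_nat_ge (1 / γ)
  obtain ⟨N2, hN2⟩ := exists_nat_ge (1 / η)
  set M := max M₀ (N1 + N2) with hMdef
  have hsR : (1 : ℝ) ≤ s := by exact_mod_cast hs1
  have hMN : ((N1 + N2 : ℕ) : ℝ) ≤ M := by exact_mod_cast le_max_right _ _
  push_cast at hMN
  have hγM : 1 ≤ γ * M := by
    have : 1 / γ ≤ (M : ℝ) := by
      have : (0 : ℝ) ≤ N2 := Nat.cast_nonneg _
      linarith
    rw [div_le_iff₀ hγ0] at this
    linarith
  have hηM : 1 ≤ η * M := by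
    have : 1 / η ≤ (M : ℝ) := by
      have : (0 : ℝ) ≤ N1 := Nat.cast_nonneg _
      linarith
    rw [div_le_iff₀ hη0] at this
    linarith
  have hM1 : 1 ≤ M := by
    by_contra h
    have : M = 0 := by omega
    rw [this] at hγM
    simp at hγM
    linarith
  set t := M * s with ht
  have ht1 : 1 ≤ t := Nat.mul_pos hM1 hs1
  have htR : (t : ℝ) = M * s := by rw [ht]; push_cast; ring
  have hnot : ¬ Cov t ((1 + η) * c0) := by
    intro h
    have : (1 + η) * c0 ≤ c0 := le_csSup hbdd ⟨by positivity, t, ht1, h⟩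
    nlinarith
  obtain ⟨V, _, G, hne, hopt, hpl, hT⟩ := hF t ((1 + η) * c0) ht1 (by positivity) hnot
  have hdeg : ∀ v, dgr G v ≤ t := deg_le G t hopt
  have hU0 : 0 ≤ UU G t univ := by
    have := hopt ∅
    rw [UU_empty] at this
    exact this
  have hHS : HS G s t η := by
    intro Z
    obtain ⟨P, -, hPp, hPZ⟩ := hcs V inferInstance G univ
    have h1 := hPZ Z (Finset.subset_univ Z)
    have h2 := hpl P hPp
    have h3 : (1 - η) * c0 * ((t : ℝ) ^ 2 * UU G s Z) ≤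
        (s : ℝ) ^ 2 * ((1 + η) * c0 * UU G t univ) := by
      have e1 : (t : ℝ) ^ 2 * ((1 - η) * c0 * UU G s Z) ≤
          (t : ℝ) ^ 2 * ((s : ℝ) ^ 2 * P.card) := mul_le_mul_of_nonneg_left h1 (by positivity)
      have e2' : (s : ℝ) ^ 2 * ((t : ℝ) ^ 2 * P.card) ≤
          (s : ℝ) ^ 2 * ((1 + η) * c0 * UU G t univ) :=
        mul_le_mul_of_nonneg_left h2.le (by positivity)
      calc (1 - η) * c0 * ((t : ℝ) ^ 2 * UU G s Z) = (t : ℝ) ^ 2 * ((1 - η) * c0 * UU G s Z) := by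
            ring
        _ ≤ (t : ℝ) ^ 2 * ((s : ℝ) ^ 2 * P.card) := e1
        _ = (s : ℝ) ^ 2 * ((t : ℝ) ^ 2 * P.card) := by ring
        _ ≤ _ := e2'
    have h4 : (1 - η) * ((t : ℝ) ^ 2 * UU G s Z) ≤ (1 + η) * ((s : ℝ) ^ 2 * UU G t univ) := by
      have : c0 * ((1 - η) * ((t : ℝ) ^ 2 * UU G s Z)) ≤
          c0 * ((1 + η) * ((s : ℝ) ^ 2 * UU G t univ)) := by
        calc _ = (1 - η) * c0 * ((t : ℝ) ^ 2 * UU G s Z) := by ring
          _ ≤ _ := h3
          _ = _ := by ring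
      exact le_of_mul_le_mul_left this hc0pos
    have h5 : 0 ≤ (s : ℝ) ^ 2 * UU G t univ := mul_nonneg (by positivity) hU0
    have h6 : (1 + η) ≤ (1 - η) * (1 + 3 * η) := by nlinarith
    have h7 : (1 - η) * ((t : ℝ) ^ 2 * UU G s Z) ≤
        (1 - η) * ((1 + 3 * η) * ((s : ℝ) ^ 2 * UU G t univ)) := by
      calc _ ≤ _ := h4
        _ ≤ ((1 - η) * (1 + 3 * η)) * ((s : ℝ) ^ 2 * UU G t univ) :=
          mul_le_mul_of_nonneg_right h6 h5
        _ = _ := by ring
    have h8 := le_of_mul_le_mul_left h7 (by linarith : 0 < 1 - η)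
    linarith
  have hHS1 : HS G s (M * s) η₁ := by
    intro Z
    have h1 := hHS Z
    have h5 : 0 ≤ (s : ℝ) ^ 2 * UU G t univ := mul_nonneg (by positivity) hU0
    have h2 : (1 + 3 * η) * ((s : ℝ) ^ 2 * UU G t univ) ≤
        (1 + 3 * η₁) * ((s : ℝ) ^ 2 * UU G t univ) :=
      mul_le_mul_of_nonneg_right (by linarith) h5
    rw [← ht]
    calc _ ≤ _ := h1
      _ = (1 + 3 * η) * ((s : ℝ) ^ 2 * UU G t univ) := by ring
      _ ≤ _ := h2
      _ = _ := by ring
  have hn : (0 : ℝ) ≤ Fintype.card V := Nat.cast_nonneg _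
  have hreg : Reg G t γ := by
    refine ⟨hdeg, ?_, ?_, ?_⟩
    · rw [htR]
      nlinarith
    · have h1 := hN V inferInstance G s t η hs1 hη0 (by linarith) (by
        rw [htR]; nlinarith) hdeg hHS
      refine h1.trans ?_
      have h2 : 4 * √η ≤ γ := by
        have h3 : √η ≤ √(γ ^ 2 / 16) := Real.sqrt_le_sqrt hηc
        have h4 : √(γ ^ 2 / 16) = γ / 4 := by
          rw [show γ ^ 2 / 16 = (γ / 4) ^ 2 by ring]
          exact Real.sqrt_sq (by positivity)
        rw [h4] at h3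
        linarith
      have h5 : (0 : ℝ) ≤ t * Fintype.card V := by positivity
      calc 4 * √η * t * Fintype.card V = (4 * √η) * (t * Fintype.card V) := by ring
        _ ≤ γ * (t * Fintype.card V) := mul_le_mul_of_nonneg_right h2 h5
        _ = _ := by ring
    · exact hM0 M (le_max_left _ _) V inferInstance G hdeg hHS1
  obtain ⟨T, hTne, hTp, hTle⟩ := hcore V inferInstance hne G t hreg
  have h1 := hT T hTne hTp
  have h2 : 0 < (t : ℝ) ^ 2 * T.card := by
    have : (0 : ℝ) < t := by exact_mod_cast ht1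
    have h3 : (0 : ℝ) < T.card := by exact_mod_cast hTne.card_pos
    positivity
  have h3 : (1 + η) * c0 * ((e2 G (cnb G T) : ℝ) + Dfc G t T) ≤
      (1 + η) * c0 * ((1 / 4 + δ / 16) * (t : ℝ) ^ 2 * T.card) :=
    mul_le_mul_of_nonneg_left hTle (by positivity)
  have h4 : (1 + η) * c0 * (1 / 4 + δ / 16) ≤ 1 := by
    have e1 : (1 + η) * c0 ≤ (1 + δ / 2) * C := by
      calc (1 + η) * c0 ≤ (1 + δ / 2) * c0 := mul_le_mul_of_nonneg_right (by linarith) hc0pos.le
        _ ≤ (1 + δ / 2) * C := mul_le_mul_of_nonneg_left hc0C (by positivity)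
    have e2' : (1 + η) * c0 * (1 / 4 + δ / 16) ≤ (1 + δ / 2) * C * (1 / 4 + δ / 16) :=
      mul_le_mul_of_nonneg_right e1 (by positivity)
    have e3 : C = 4 - 4 * δ := by rw [hδ]; ring
    rw [e3] at e2'
    nlinarith [sq_nonneg δ, mul_nonneg hδ0.le hδ0.le, mul_nonneg (mul_nonneg hδ0.le hδ0.le) hδ0.le]
  have h5 : (1 + η) * c0 * ((1 / 4 + δ / 16) * (t : ℝ) ^ 2 * T.card) ≤ (t : ℝ) ^ 2 * T.card := by
    calc _ = ((1 + η) * c0 * (1 / 4 + δ / 16)) * ((t : ℝ) ^ 2 * T.card) := by ring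
      _ ≤ 1 * ((t : ℝ) ^ 2 * T.card) := mul_le_mul_of_nonneg_right h4 h2.le
      _ = _ := by ring
  linarith

end Pool.Agent.Helper60.PlzA
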